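import Pool.Agent.Helper204.EHGood

set_option autoImplicit false

namespace Pool.Agent.Helper204.EH

noncomputable section

open MvPolynomial

theorem L_induction {P : Lam → Prop} (hC : ∀ x ∈ reg, P (C x)) (hX : ∀ k, P (X k))
    (hadd : ∀ f ∈ L, ∀ g ∈ L, P f → P g → P (f + g))
    (hmul : ∀ f ∈ L, ∀ g ∈ L, P f → P g → P (f * g)) : ∀ f ∈ L, P f := by
  classical
  intro f hf
  have hpow : ∀ (k : ℕ+) (n : ℕ), (X k : Lam) ^ n ∈ L ∧ P (X k ^ n) := by
    intro k n
    induction n with
    | zero =>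
      refine ⟨by simpa using L.one_mem, ?_⟩
      have := hC 1 reg.one_mem
      simpa using this
    | succ n ih =>
      rw [pow_succ]
      exact ⟨L.mul_mem ih.1 (X_mem_L k), hmul _ ih.1 _ (X_mem_L k) ih.2 (hX k)⟩
  have hprod : ∀ (s : Finset ℕ+) (v : ℕ+ →₀ ℕ), (∏ i ∈ s, (X i : Lam) ^ v i) ∈ L ∧
      P (∏ i ∈ s, (X i : Lam) ^ v i) := by
    intro s v
    induction s using Finset.induction_on with
    | empty =>
      refine ⟨by simpa using L.one_mem, ?_⟩
      have := hC 1 reg.one_mem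
      simpa using this
    | insert a s ha ih =>
      rw [Finset.prod_insert ha]
      exact ⟨L.mul_mem (hpow a _).1 ih.1, hmul _ (hpow a _).1 _ ih.1 (hpow a _).2 ih.2⟩
  have hmon : ∀ (v : ℕ+ →₀ ℕ) (x : F), x ∈ reg → monomial v x ∈ L ∧ P (monomial v x) := by
    intro v x hx
    rw [monomial_eq, Finsupp.prod]
    exact ⟨L.mul_mem (C_mem_L hx) (hprod _ v).1, hmul _ (C_mem_L hx) _ (hprod _ v).1 (hC x hx)
      (hprod _ v).2⟩
  have hsum : ∀ s : Finset (ℕ+ →₀ ℕ), (∑ v ∈ s, monomial v (coeff v f)) ∈ L ∧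
      P (∑ v ∈ s, monomial v (coeff v f)) := by
    intro s
    induction s using Finset.induction_on with
    | empty =>
      refine ⟨by simpa using L.zero_mem, ?_⟩
      have := hC 0 reg.zero_mem
      simpa using this
    | insert a s ha ih =>
      rw [Finset.sum_insert ha]
      have h1 := hmon a _ (hf a)
      exact ⟨L.add_mem h1.1 ih.1, hadd _ h1.1 _ ih.1 h1.2 ih.2⟩
  rw [as_sum f]
  exact (hsum _).2

/-- Polynomials in `1/z` with coefficients in `L`. -/
def LX : Subring (Polynomial Lam) where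
  carrier := {P | ∀ i, P.coeff i ∈ L}
  one_mem' := by
    intro i
    rw [Polynomial.coeff_one]
    split_ifs
    · exact L.one_mem
    · exact L.zero_mem
  zero_mem' := by
    intro i
    rw [Polynomial.coeff_zero]
    exact L.zero_mem
  add_mem' := by
    intro x y hx hy i
    rw [Polynomial.coeff_add]
    exact L.add_mem (hx i) (hy i)
  mul_mem' := by
    intro x y hx hy i
    rw [Polynomial.coeff_mul]
    exact L.sum_mem fun j _ => L.mul_mem (hx _) (hy _)
  neg_mem' := by
    intro x hx i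
    rw [Polynomial.coeff_neg]
    exact L.neg_mem (hx i)

theorem C_mem_LX {f : Lam} (hf : f ∈ L) : Polynomial.C f ∈ LX := by
  intro i
  rw [Polynomial.coeff_C]
  split_ifs
  · exact hf
  · exact L.zero_mem

theorem monomial_mem_LX {f : Lam} (hf : f ∈ L) (n : ℕ) : Polynomial.monomial n f ∈ LX := by
  intro i
  rw [Polynomial.coeff_monomial]
  split_ifs
  · exact hf
  · exact L.zero_mem

theorem q_mem : q ∈ reg := C_mem _

theorem one_sub_t_pow (n : ℕ) : (1 : F) - t ^ n = hb * ∑ i ∈ Finset.range n, t ^ i := by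
  have h := mul_neg_geom_sum t n
  unfold hb
  exact h.symm

theorem geom_mem (n : ℕ) : (∑ i ∈ Finset.range n, t ^ i) ∈ reg :=
  reg.sum_mem fun i _ => reg.pow_mem t_mem i

theorem pleth_X (k : ℕ+) : pleth (X k) = Polynomial.C (X k) +
    Polynomial.monomial (k : ℕ) (C ((1 - q ^ (k : ℕ)) * (1 - t ^ (k : ℕ)))) := by
  unfold pleth
  rw [aeval_X]
  rfl

theorem pleth_C (x : F) : pleth (C x) = Polynomial.C (C x) := by
  have h := pleth.commutes x
  exact h

/-- `f - f[x + M/z]` is divisible by `ħ`. -/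
theorem exists_U : ∀ f ∈ L, pleth f ∈ LX ∧ ∃ U ∈ LX,
    Polynomial.C f - pleth f = Polynomial.C (C hb) * U := by
  apply L_induction
  · intro x hx
    rw [pleth_C]
    exact ⟨C_mem_LX (C_mem_L hx), 0, LX.zero_mem, by simp⟩
  · intro k
    have h1 : (1 - q ^ (k : ℕ)) ∈ reg := reg.sub_mem reg.one_mem (reg.pow_mem q_mem _)
    have h2 := reg.mul_mem h1 (geom_mem (k : ℕ))
    rw [pleth_X]
    refine ⟨LX.add_mem (C_mem_LX (X_mem_L k)) (monomial_mem_LX (C_mem_L (reg.mul_mem h1
      (reg.sub_mem reg.one_mem (reg.pow_mem t_mem _)))) _),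
      Polynomial.monomial (k : ℕ) (C (-((1 - q ^ (k : ℕ)) * ∑ i ∈ Finset.range (k : ℕ), t ^ i))),
      monomial_mem_LX (C_mem_L (reg.neg_mem h2)) _, ?_⟩
    rw [Polynomial.C_mul_monomial, ← C_mul, one_sub_t_pow, sub_add_cancel_left,
      ← Polynomial.monomial_neg, ← C_neg]
    congr 2
    ring
  · rintro f hf g hg ⟨h1, U, hU, hU'⟩ ⟨h2, V, hV, hV'⟩
    rw [map_add]
    refine ⟨LX.add_mem h1 h2, U + V, LX.add_mem hU hV, ?_⟩
    rw [mul_add, ← hU', ← hV', Polynomial.C_add]
    ring
  · rintro f hf g hg ⟨h1, U, hU, hU'⟩ ⟨h2, V, hV, hV'⟩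
    rw [map_mul]
    refine ⟨LX.mul_mem h1 h2, Polynomial.C f * V + U * pleth g,
      LX.add_mem (LX.mul_mem (C_mem_LX hf) hV) (LX.mul_mem hU h2), ?_⟩
    have : Polynomial.C (C hb) * (Polynomial.C f * V + U * pleth g) =
      Polynomial.C f * (Polynomial.C (C hb) * V) + (Polynomial.C (C hb) * U) * pleth g := by ring
    rw [this, ← hU', ← hV', Polynomial.C_mul]
    ring

theorem e_zero : e 0 = 1 := by rw [e]

theorem e_succ (n : ℕ) : e (n + 1) = MvPolynomial.C ((n + 1 : F)⁻¹) *
      ∑ i : Fin (n + 1), (-1) ^ (i : ℕ) * e (n - i) * p (Nat.succPNat i) := by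
  rw [e]

theorem rat_mem (a : ℚ) : ((RatFunc.C (RatFunc.C a : K)) : F) ∈ reg := C_mem _

theorem nat_inv_mem (n : ℕ) : ((n + 1 : F)⁻¹) ∈ reg := by
  have h : ((n + 1 : F)⁻¹) = RatFunc.C ((n + 1 : K)⁻¹) := by
    rw [map_inv₀, map_add, map_natCast, map_one]
  rw [h]
  exact C_mem _

theorem e_mem (n : ℕ) : e n ∈ L := by
  induction n using Nat.strong_induction_on with
  | _ n ih =>
    cases n with
    | zero => rw [e_zero]; exact L.one_mem
    | succ n =>
      rw [e_succ]
      refine L.mul_mem (C_mem_L (nat_inv_mem n)) (L.sum_mem fun i _ => ?_)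
      exact L.mul_mem (L.mul_mem (L.pow_mem (L.neg_mem L.one_mem) _)
        (ih _ (by omega))) (X_mem_L _)

theorem eCoeff_mem (n : ℤ) : eCoeff n ∈ L := by
  unfold eCoeff
  split_ifs
  · exact L.mul_mem (L.pow_mem (L.neg_mem L.one_mem) _) (e_mem _)
  · exact L.zero_mem

/-- Extraction of the coefficient of `z^k` in `P(1/z) * ∑ e_n (-z)^n`. -/
def T (k : ℤ) : Polynomial Lam →ₗ[Lam] Lam :=
  Polynomial.lsum fun i : ℕ => LinearMap.mulRight Lam (eCoeff (k + i))

theorem T_monomial (k : ℤ) (i : ℕ) (a : Lam) :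
    T k (Polynomial.monomial i a) = a * eCoeff (k + i) := by
  unfold T
  rw [Polynomial.lsum_apply, Polynomial.sum_monomial_index]
  · rfl
  · simp

theorem D_eq (k : ℤ) (g : Lam) : D k g = T k (pleth g) := rfl

theorem T_monomial_mul (k : ℤ) (i : ℕ) (a : Lam) (V : Polynomial Lam) :
    T k (Polynomial.monomial i a * V) = a * T (k + i) V := by
  induction V using Polynomial.induction_on' with
  | add U V hU hV => rw [mul_add, map_add, map_add, mul_add, hU, hV]
  | monomial j b =>
    rw [Polynomial.monomial_mul_monomial, T_monomial, T_monomial]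
    push_cast
    rw [mul_assoc, add_assoc]

theorem T_mul (k : ℤ) (U V : Polynomial Lam) :
    T k (U * V) = ∑ i ∈ U.support, U.coeff i * T (k + i) V := by
  conv_lhs => rw [U.as_sum_support, Finset.sum_mul, map_sum]
  exact Finset.sum_congr rfl fun i _ => T_monomial_mul k i _ V

theorem T_mem (k : ℤ) {P : Polynomial Lam} (hP : P ∈ LX) : T k P ∈ L := by
  rw [P.as_sum_support, map_sum]
  refine L.sum_mem fun i _ => ?_
  rw [T_monomial]
  exact L.mul_mem (hP i) (eCoeff_mem _)

theorem D_good (n : ℕ) : ∀ k : ℤ, Good n (D k) := by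
  induction n with
  | zero => intro k g hg; exact T_mem k (exists_U g hg).1
  | succ n ih =>
    intro k
    refine ⟨fun g hg => T_mem k (exists_U g hg).1, fun f hf => ?_⟩
    obtain ⟨_, U, hU, hU'⟩ := exists_U f hf
    have key : hb⁻¹ • (mulOp f * D k - D k * mulOp f) =
        ∑ i ∈ U.support, mulOp (U.coeff i) * D (k + i) := by
      refine LinearMap.ext fun g => ?_
      simp only [LinearMap.smul_apply, LinearMap.sub_apply, Module.End.mul_apply, mulOp_apply,
        LinearMap.sum_apply, D_eq]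
      rw [map_mul, ← T_mul, ← smul_eq_mul f, ← map_smul, ← map_sub, Polynomial.smul_eq_C_mul,
        ← sub_mul, hU', mul_assoc, ← Polynomial.smul_eq_C_mul, map_smul, smul_eq_mul,
        ← MvPolynomial.smul_eq_C_mul, smul_smul, inv_mul_cancel₀ hb_ne_zero, one_smul]
    rw [key]
    exact Good.sum _ _ fun i _ => (Good.mulOp (hU i)).mul (ih _)

theorem D_goodAll (k : ℤ) : GoodAll (D k) := fun n => D_good n k

end

end Pool.Agent.Helper204.EH
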