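import Mathlib

set_option autoImplicit false

/-!
Definitions for the elliptic Hall operators acting on symmetric functions over `ℚ(q,t)`.

The ring `Λ` of symmetric functions over `ℚ(q,t)` is the polynomial ring in the power sums
`p₁, p₂, …`.
-/

namespace Pool.Agent.Helper204.EH

noncomputable section

/-- The field `ℚ(q)`. -/
abbrev K : Type := RatFunc ℚ

/-- The field `ℚ(q,t) = ℚ(q)(t)`. -/
abbrev F : Type := RatFunc K

/-- The parameter `q`. -/
def q : F := RatFunc.C (RatFunc.X : K)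

/-- The parameter `t`. -/
def t : F := RatFunc.X

/-- `M = (1-q)(1-t)`. -/
def M : F := (1 - q) * (1 - t)

/-- Symmetric functions over `ℚ(q,t)`: polynomials in the power sums; `MvPolynomial.X k` is the
power sum `p_k`, `k ≥ 1`. -/
abbrev Lam : Type := MvPolynomial ℕ+ F

/-- Linear operators on `Λ`; `A * B` is composition. -/
abbrev Op : Type := Module.End F Lam

/-- The power sum `p_k`. -/
def p (k : ℕ+) : Lam := MvPolynomial.X k

/-- Elementary symmetric functions, by Newton's identity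
`n e_n = ∑_{i=1}^n (-1)^(i-1) e_{n-i} p_i`. -/
def e : ℕ → Lam
  | 0 => 1
  | n + 1 => MvPolynomial.C ((n + 1 : F)⁻¹) *
      ∑ i : Fin (n + 1), (-1) ^ (i : ℕ) * e (n - i) * p (Nat.succPNat i)
  decreasing_by exact Nat.lt_succ_of_le (Nat.sub_le _ _)

/-- Complete homogeneous symmetric functions, by Newton's identity
`n h_n = ∑_{i=1}^n h_{n-i} p_i`. -/
def h : ℕ → Lam
  | 0 => 1
  | n + 1 => MvPolynomial.C ((n + 1 : F)⁻¹) *
      ∑ i : Fin (n + 1), h (n - i) * p (Nat.succPNat i)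
  decreasing_by exact Nat.lt_succ_of_le (Nat.sub_le _ _)

/-- `h_n` for integer index, zero for negative index. -/
def hInt (n : ℤ) : Lam := if 0 ≤ n then h n.toNat else 0

/-- The Schur function of the partition with the given (weakly decreasing) list of parts, by the
Jacobi–Trudi formula `s_l = det (h_{l_i - i + j})`. -/
def schur (l : List ℕ) : Lam :=
  Matrix.det (Matrix.of fun i j : Fin l.length => hInt ((l.get i : ℤ) - (i : ℤ) + (j : ℤ)))

/-- `q_d = ∑_{j+k=d-1} (-qt)^(-j) s_{(j|k)}`, where `s_{(j|k)}` is the Schur function of the hook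
with one part `j+1` and `k` parts `1`. -/
def qfun (d : ℕ) : Lam :=
  ∑ j ∈ Finset.range d, MvPolynomial.C (((-(q * t)) ^ j)⁻¹) *
    schur ((j + 1) :: List.replicate (d - 1 - j) 1)

/-- The plethysm `g ↦ g[x + M/z]`, as a polynomial in `1/z` with coefficients in `Λ`:
`p_k ↦ p_k + (1-q^k)(1-t^k) z^(-k)`. -/
def pleth : Lam →ₐ[F] Polynomial Lam :=
  MvPolynomial.aeval fun k : ℕ+ =>
    Polynomial.C (p k) +
      Polynomial.monomial (k : ℕ) (MvPolynomial.C ((1 - q ^ (k : ℕ)) * (1 - t ^ (k : ℕ))))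

/-- The coefficient of `z^n` in `∑_{n ≥ 0} e_n (-z)^n`, for `n` an integer. -/
def eCoeff (n : ℤ) : Lam := if 0 ≤ n then (-1) ^ n.toNat * e n.toNat else 0

/-- The operator `D_k`: `D_k(g)` is the coefficient of `z^k` in
`g[x + M/z] * ∑_{n ≥ 0} e_n (-z)^n`. -/
def D (k : ℤ) : Op :=
  (Polynomial.lsum fun i : ℕ => LinearMap.mulRight F (eCoeff (k + i))) ∘ₗ pleth.toLinearMap

theorem D_apply (k : ℤ) (g : Lam) :
    D k g = (pleth g).sum fun i a => a * eCoeff (k + i) := rfl

/-- Multiplication by a symmetric function. -/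
def mulOp (f : Lam) : Op := LinearMap.mulLeft F f

/-- For coprime `a, b ≥ 1`: the number `k` of the splitting `(a,b) = (k,l) + (u,v)`; it is the
least `k` such that `a` divides `b k + 1`. -/
def splitK (a b : ℕ) : ℕ := sInf {k | a ∣ b * k + 1}

/-- For coprime `a, b ≥ 1`: the number `l` of the splitting `(a,b) = (k,l) + (u,v)`. -/
def splitL (a b : ℕ) : ℕ := (b * splitK a b + 1) / a

theorem exists_split (a b : ℕ) (ha : 0 < a) (hab : Nat.Coprime a b) :
    ∃ k < a, a ∣ b * k + 1 := by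
  rcases Nat.lt_or_ge 1 a with h1 | h1
  · obtain ⟨m, hm, hm'⟩ := Nat.exists_mul_mod_eq_one_of_coprime hab.symm h1
    refine ⟨(a - m % a) % a, Nat.mod_lt _ ha, ?_⟩
    rw [← Int.natCast_dvd_natCast]
    push_cast
    have h2 : ((b * m : ℕ) : ℤ) ≡ 1 [ZMOD a] := by
      have : b * m ≡ 1 [MOD a] := by
        unfold Nat.ModEq
        rw [hm', Nat.mod_eq_of_lt h1]
      exact_mod_cast this
    have h3 : (((a - m % a : ℕ) : ℤ) % a) ≡ -m [ZMOD a] := by
      have : m % a ≤ a := (Nat.mod_lt _ ha).le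
      push_cast [this]
      refine (Int.mod_modEq _ _).trans ?_
      have h4 : ((m : ℤ) % a) ≡ m [ZMOD a] := Int.mod_modEq _ _
      calc ((a : ℤ) - (m : ℤ) % a) ≡ a - m [ZMOD a] := Int.ModEq.sub_left _ h4
        _ ≡ -m [ZMOD a] := by
          have := Int.ModEq.sub_right (m : ℤ) (Int.modEq_zero_iff_dvd.2 (dvd_refl (a : ℤ)))
          simpa using this
    have h5 : (b : ℤ) * (((a - m % a : ℕ) : ℤ) % a) + 1 ≡ 0 [ZMOD a] := by
      calc (b : ℤ) * (((a - m % a : ℕ) : ℤ) % a) + 1 ≡ b * (-m) + 1 [ZMOD a] :=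
            Int.ModEq.add_right _ (Int.ModEq.mul_left _ h3)
        _ = -((b * m : ℕ) : ℤ) + 1 := by push_cast; ring
        _ ≡ -1 + 1 [ZMOD a] := Int.ModEq.add_right _ (Int.ModEq.neg h2)
        _ = 0 := by ring
    exact Int.modEq_zero_iff_dvd.1 h5
  · have : a = 1 := le_antisymm h1 ha
    subst this
    exact ⟨0, by norm_num, by simp⟩

theorem split_spec (a b : ℕ) (ha : 0 < a) (hab : Nat.Coprime a b) :
    splitK a b < a ∧ a * splitL a b = b * splitK a b + 1 := by
  obtain ⟨k, hk, hk'⟩ := exists_split a b ha hab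
  have h1 : splitK a b ∈ {k | a ∣ b * k + 1} := Nat.sInf_mem ⟨k, hk'⟩
  have h2 : splitK a b ≤ k := Nat.sInf_le hk'
  refine ⟨lt_of_le_of_lt h2 hk, ?_⟩
  unfold splitL
  exact Nat.mul_div_cancel' h1

/-- The `k` of the splitting of `(m,n)`: the same as for `(m,n)/gcd(m,n)`. -/
def kk (m n : ℕ) : ℕ := splitK (m / m.gcd n) (n / m.gcd n)

/-- The `l` of the splitting of `(m,n)`: the same as for `(m,n)/gcd(m,n)`. -/
def ll (m n : ℕ) : ℕ := splitL (m / m.gcd n) (n / m.gcd n)

theorem split_bounds (m n : ℕ) (hm : 0 < m) (hn : 0 < n) :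
    kk m n < m ∧ 0 < ll m n ∧ ll m n ≤ n := by
  unfold kk ll
  have hd : 0 < m.gcd n := Nat.gcd_pos_of_pos_left _ hm
  have ha : 0 < m / m.gcd n := Nat.div_pos (Nat.le_of_dvd hm (Nat.gcd_dvd_left _ _)) hd
  have hb : 0 < n / m.gcd n := Nat.div_pos (Nat.le_of_dvd hn (Nat.gcd_dvd_right _ _)) hd
  obtain ⟨h1, h2⟩ := split_spec (m / m.gcd n) (n / m.gcd n) ha
    (Nat.coprime_div_gcd_div_gcd hd)
  refine ⟨lt_of_lt_of_le h1 (Nat.div_le_self _ _), ?_, ?_⟩
  · rcases Nat.eq_zero_or_pos (splitL (m / m.gcd n) (n / m.gcd n)) with h3 | h3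
    · rw [h3] at h2; omega
    · exact h3
  · refine le_trans ?_ (Nat.div_le_self n (m.gcd n))
    generalize m / m.gcd n = a at *
    generalize n / m.gcd n = b at *
    by_contra hcon
    push Not at hcon
    have h4 : a * (b + 1) ≤ a * splitL a b := Nat.mul_le_mul_left _ hcon
    have h5 : b * splitK a b ≤ b * (a - 1) := Nat.mul_le_mul_left _ (by omega)
    have h6 : b * (a - 1) + b = b * a := by
      cases a with
      | zero => omega
      | succ a => simp [Nat.mul_succ]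
    nlinarith

/-- The splitting `(m,n) = (k,l) + (u,v)` satisfies `u l - v k = gcd(m,n)`. -/
theorem split_det (m n : ℕ) (hm : 0 < m) (hn : 0 < n) :
    (m - kk m n) * ll m n = (n - ll m n) * kk m n + m.gcd n := by
  obtain ⟨b1, b2, b3⟩ := split_bounds m n hm hn
  have hd : 0 < m.gcd n := Nat.gcd_pos_of_pos_left _ hm
  have ha : 0 < m / m.gcd n := Nat.div_pos (Nat.le_of_dvd hm (Nat.gcd_dvd_left _ _)) hd
  have h2 : m / m.gcd n * ll m n = n / m.gcd n * kk m n + 1 :=
    (split_spec (m / m.gcd n) (n / m.gcd n) ha (Nat.coprime_div_gcd_div_gcd hd)).2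
  have hm' : m.gcd n * (m / m.gcd n) = m := Nat.mul_div_cancel' (Nat.gcd_dvd_left _ _)
  have hn' : m.gcd n * (n / m.gcd n) = n := Nat.mul_div_cancel' (Nat.gcd_dvd_right _ _)
  have h3 : m * ll m n = n * kk m n + m.gcd n := by
    calc m * ll m n = m.gcd n * (m / m.gcd n * ll m n) := by
          rw [← mul_assoc, hm']
      _ = m.gcd n * (n / m.gcd n) * kk m n + m.gcd n := by rw [h2]; ring
      _ = n * kk m n + m.gcd n := by rw [hn']
  obtain ⟨u, hu⟩ := Nat.exists_eq_add_of_le b1.le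
  obtain ⟨v, hv⟩ := Nat.exists_eq_add_of_le b3
  have e1 : m - kk m n = u := by omega
  have e2 : n - ll m n = v := by omega
  rw [e1, e2]
  have h4 : (kk m n + u) * ll m n = (ll m n + v) * kk m n + m.gcd n := by
    rw [← hu, ← hv]; exact h3
  nlinarith

/-- Uniqueness of the splitting of a coprime pair: if `(a,b) = (k,l) + (u,v)` in `ℕ²` and
`u l - v k = 1` then `(k,l)` is the splitting chosen above. -/
theorem split_unique (a b k l u v : ℕ) (ha : 0 < a) (hb : 0 < b) (hab : Nat.Coprime a b)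
    (h1 : k + u = a) (h2 : l + v = b) (h3 : u * l = v * k + 1) :
    k = kk a b ∧ l = ll a b := by
  have hd : a.gcd b = 1 := hab
  unfold kk ll
  rw [hd, Nat.div_one, Nat.div_one]
  obtain ⟨s1, s2⟩ := split_spec a b ha hab
  have h4 : a * l = b * k + 1 := by
    subst h1; subst h2; nlinarith
  have hk : k < a := by
    rcases Nat.eq_zero_or_pos u with hu | hu
    · subst hu; simp at h3
    · omega
  have h5 : k = splitK a b := by
    have e1 : a ∣ b * k + 1 := ⟨l, h4.symm⟩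
    have e2 : a ∣ b * splitK a b + 1 := ⟨_, s2.symm⟩
    have e3 : splitK a b ≤ k := Nat.sInf_le e1
    have e4 : a ∣ (b * k + 1) - (b * splitK a b + 1) := Nat.dvd_sub e1 e2
    have e5 : (b * k + 1) - (b * splitK a b + 1) = b * (k - splitK a b) := by
      rw [Nat.mul_sub]; omega
    rw [e5] at e4
    have e6 : a ∣ k - splitK a b := hab.dvd_of_dvd_mul_left e4
    have e7 : k - splitK a b = 0 := Nat.eq_zero_of_dvd_of_lt e6 (by omega)
    omega
  refine ⟨h5, ?_⟩
  have : a * l = a * splitL a b := by rw [h4, s2, h5]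
  exact Nat.eq_of_mul_eq_mul_left ha this

/-- `(σ/M) [A, B]`, with `[A, B] = A B - B A` the commutator. -/
def brk (σ : ℤˣ) (A B : Op) : Op := M⁻¹ • ((σ : ℤ) • (A * B - B * A))

/-- The operators `Q_{mn}`. The signs `σ, ε, δ` and the index `j` select the normalisation:
`Q_{0,n}` is `δ` times multiplication by `q_n`, and `Q_{m,0} = ε^m D_{jm}`. For `m, n ≥ 1`,
`Q_{mn} = (σ/M) [Q_{uv}, Q_{kl}]` where `(m,n) = (k,l) + (u,v)` is the splitting above. -/
def Q (σ ε δ : ℤˣ) (j : ℕ) : ℕ → ℕ → Op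
  | 0, n => (δ : ℤ) • mulOp (qfun n)
  | m + 1, 0 => ((ε : ℤ) ^ (m + 1)) • D (j * (m + 1) : ℕ)
  | m + 1, n + 1 =>
      brk σ (Q σ ε δ j (m + 1 - kk (m + 1) (n + 1)) (n + 1 - ll (m + 1) (n + 1)))
        (Q σ ε δ j (kk (m + 1) (n + 1)) (ll (m + 1) (n + 1)))
  termination_by m n => m + n
  decreasing_by
    all_goals
      have hb := split_bounds (m + 1) (n + 1) (Nat.succ_pos _) (Nat.succ_pos _)
      omega

/-- The ordered product `∏_i Q_{a μ_i, b μ_i}` over the parts `μ_1 ≥ μ_2 ≥ …` of a partition. -/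
def QPart (σ ε δ : ℤˣ) (j a b : ℕ) {d : ℕ} (μ : Nat.Partition d) : Op :=
  ((μ.parts.sort (· ≥ ·)).map fun i => Q σ ε δ j (a * i) (b * i)).prod

/-- `Θ_{a,b}(f_d)` for `f_d = ∑_μ c_μ q_μ`. -/
def Theta (σ ε δ : ℤˣ) (j a b : ℕ) {d : ℕ} (c : Nat.Partition d → F) : Op :=
  ∑ μ : Nat.Partition d, c μ • QPart σ ε δ j a b μ

/-- Application of an operator to a symmetric function. -/
def app (A : Op) (g : Lam) : Lam := A g

/-- `f_d^{(a,b)} = Θ_{a,b}(f_d)(1)`. -/
def fab (σ ε δ : ℤˣ) (j a b : ℕ) {d : ℕ} (c : Nat.Partition d → F) : Lam :=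
  app (Theta σ ε δ j a b c) 1

/-- The value in `ℚ(q,t)` of a polynomial in `q, t` with coefficients in `ℕ`. -/
def evalQT (P : MvPolynomial (Fin 2) ℕ) : F := MvPolynomial.aeval ![q, t] P

/-- Schur positivity: a finite combination of Schur functions with coefficients in `ℕ[q,t]`. -/
def SchurPositive (f : Lam) : Prop :=
  ∃ c : ((n : ℕ) × Nat.Partition n) →₀ MvPolynomial (Fin 2) ℕ,
    f = c.sum fun μ P => MvPolynomial.C (evalQT P) * schur (μ.2.parts.sort (· ≥ ·))

/-- `f_d = ∑_μ c_μ q_μ` is a seed: `f_d^{(a,b)} = Θ_{a,b}(f_d)(1)` is Schur positive for all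
coprime `a, b ≥ 1`. -/
def IsSeed (σ ε δ : ℤˣ) (j : ℕ) {d : ℕ} (c : Nat.Partition d → F) : Prop :=
  ∀ a b : ℕ, 1 ≤ a → 1 ≤ b → Nat.Coprime a b → SchurPositive (fab σ ε δ j a b c)

/-- All coefficients of `f` are regular at `t = 1`. -/
def RegularAtOne (f : Lam) : Prop :=
  ∀ m : ℕ+ →₀ ℕ, (RatFunc.denom (MvPolynomial.coeff m f)).eval 1 ≠ 0

/-- Setting `t = 1` in the coefficients of `f`. -/
def atOne (f : Lam) : MvPolynomial ℕ+ K :=
  ∑ m ∈ f.support,
    MvPolynomial.monomial m (RatFunc.eval (RingHom.id K) 1 (MvPolynomial.coeff m f))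

/-- A symmetric function over `ℚ(q)`, viewed over `ℚ(q,t)`. -/
def lift (g : MvPolynomial ℕ+ K) : Lam := MvPolynomial.map (RatFunc.C : K →+* F) g

end

end Pool.Agent.Helper204.EH
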