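import Pool.Agent.Helper204.EHReg

set_option autoImplicit false

namespace Pool.Agent.Helper204.EH

noncomputable section

open MvPolynomial

/-- Symmetric functions whose coefficients are regular at `t = 1`. -/
def L : Subring Lam where
  carrier := {f | ∀ m, coeff m f ∈ reg}
  one_mem' := by
    classical
    intro m
    rw [coeff_one]
    split_ifs
    · exact reg.one_mem
    · exact reg.zero_mem
  zero_mem' := by
    intro m
    rw [coeff_zero]
    exact reg.zero_mem
  add_mem' := by
    intro x y hx hy m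
    rw [coeff_add]
    exact reg.add_mem (hx m) (hy m)
  mul_mem' := by
    classical
    intro x y hx hy m
    rw [coeff_mul]
    exact reg.sum_mem fun i _ => reg.mul_mem (hx _) (hy _)
  neg_mem' := by
    intro x hx m
    rw [coeff_neg]
    exact reg.neg_mem (hx m)

theorem mem_L {f : Lam} : f ∈ L ↔ ∀ m, coeff m f ∈ reg := Iff.rfl

theorem mem_L_iff_regular {f : Lam} : f ∈ L ↔ RegularAtOne f := Iff.rfl

theorem C_mem_L {x : F} (hx : x ∈ reg) : (C x : Lam) ∈ L := by
  classical
  intro m
  rw [coeff_C]
  split_ifs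
  · exact hx
  · exact reg.zero_mem

theorem smul_mem_L {x : F} (hx : x ∈ reg) {f : Lam} (hf : f ∈ L) : x • f ∈ L := by
  intro m
  rw [coeff_smul]
  exact reg.mul_mem hx (hf m)

theorem X_mem_L (k : ℕ+) : (X k : Lam) ∈ L := by
  classical
  intro m
  rw [coeff_X]
  split_ifs
  · exact reg.one_mem
  · exact reg.zero_mem

theorem coeff_atOne (f : Lam) (m : ℕ+ →₀ ℕ) : coeff m (atOne f) = spec (coeff m f) := by
  classical
  unfold atOne
  rw [coeff_sum]
  simp only [coeff_monomial]
  rw [Finset.sum_ite_eq' f.support m]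
  split_ifs with h
  · rfl
  · rw [notMem_support_iff.1 h]
    simp

theorem atOne_add {f g : Lam} (hf : f ∈ L) (hg : g ∈ L) : atOne (f + g) = atOne f + atOne g := by
  ext m
  rw [coeff_add, coeff_atOne, coeff_atOne, coeff_atOne, coeff_add, spec_add (hf m) (hg m)]

theorem atOne_sub {f g : Lam} (hf : f ∈ L) (hg : g ∈ L) : atOne (f - g) = atOne f - atOne g := by
  ext m
  rw [coeff_sub, coeff_atOne, coeff_atOne, coeff_atOne, coeff_sub, spec_sub (hf m) (hg m)]

theorem atOne_mul {f g : Lam} (hf : f ∈ L) (hg : g ∈ L) : atOne (f * g) = atOne f * atOne g := by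
  classical
  ext m
  rw [coeff_mul, coeff_atOne, coeff_mul, spec_sum _ _ fun i _ => reg.mul_mem (hf _) (hg _)]
  refine Finset.sum_congr rfl fun i _ => ?_
  rw [spec_mul (hf _) (hg _), coeff_atOne, coeff_atOne]

@[simp] theorem atOne_zero : atOne 0 = 0 := by
  ext m
  rw [coeff_atOne]
  simp

theorem atOne_one : atOne 1 = 1 := by
  classical
  ext m
  rw [coeff_atOne, coeff_one, coeff_one]
  split_ifs <;> simp

theorem atOne_smul {x : F} (hx : x ∈ reg) {f : Lam} (hf : f ∈ L) :
    atOne (x • f) = spec x • atOne f := by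
  ext m
  rw [coeff_smul, coeff_atOne, coeff_smul, coeff_atOne, smul_eq_mul, smul_eq_mul,
    spec_mul hx (hf m)]

theorem atOne_lift (g : MvPolynomial ℕ+ K) : atOne (lift g) = g := by
  ext m
  rw [coeff_atOne, lift, coeff_map, spec_C]

theorem lift_mem (g : MvPolynomial ℕ+ K) : lift g ∈ L := by
  intro m
  rw [lift, coeff_map]
  exact C_mem _

theorem atOne_sum {ι : Type*} (s : Finset ι) (f : ι → Lam) (hf : ∀ i ∈ s, f i ∈ L) :
    atOne (∑ i ∈ s, f i) = ∑ i ∈ s, atOne (f i) := by
  classical
  induction s using Finset.induction_on with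
  | empty => simp
  | insert a s ha ih =>
    rw [Finset.sum_insert ha, Finset.sum_insert ha, atOne_add (hf a (Finset.mem_insert_self _ _))
      (L.sum_mem fun i hi => hf i (Finset.mem_insert_of_mem hi)),
      ih fun i hi => hf i (Finset.mem_insert_of_mem hi)]

/-- An operator preserving the lattice `L` whose `k`-fold commutators with elements of `L` are
divisible by `ħ^k`. -/
def Good : ℕ → Module.End F Lam → Prop
  | 0, A => ∀ g ∈ L, A g ∈ L
  | k + 1, A => (∀ g ∈ L, A g ∈ L) ∧ ∀ f ∈ L, Good k (hb⁻¹ • (mulOp f * A - A * mulOp f))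

theorem Good.zero {k : ℕ} {A : Module.End F Lam} (h : Good k A) : ∀ g ∈ L, A g ∈ L := by
  cases k with
  | zero => exact h
  | succ k => exact h.1

theorem Good.pred {k : ℕ} : ∀ {A : Module.End F Lam}, Good (k + 1) A → Good k A := by
  induction k with
  | zero => intro A h; exact h.1
  | succ k ih => intro A h; exact ⟨h.1, fun f hf => ih (h.2 f hf)⟩

theorem Good.add {k : ℕ} : ∀ {A B : Module.End F Lam}, Good k A → Good k B → Good k (A + B) := by
  induction k with
  | zero => intro A B hA hB g hg; exact L.add_mem (hA g hg) (hB g hg)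
  | succ k ih =>
    intro A B hA hB
    refine ⟨fun g hg => L.add_mem (hA.1 g hg) (hB.1 g hg), fun f hf => ?_⟩
    have : hb⁻¹ • (mulOp f * (A + B) - (A + B) * mulOp f) =
        hb⁻¹ • (mulOp f * A - A * mulOp f) + hb⁻¹ • (mulOp f * B - B * mulOp f) := by
      rw [← smul_add, mul_add, add_mul]; congr 1; abel
    rw [this]
    exact ih (hA.2 f hf) (hB.2 f hf)

theorem Good.smul {k : ℕ} {x : F} (hx : x ∈ reg) :
    ∀ {A : Module.End F Lam}, Good k A → Good k (x • A) := by
  induction k with
  | zero => intro A hA g hg; exact smul_mem_L hx (hA g hg)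
  | succ k ih =>
    intro A hA
    refine ⟨fun g hg => smul_mem_L hx (hA.1 g hg), fun f hf => ?_⟩
    have : hb⁻¹ • (mulOp f * (x • A) - (x • A) * mulOp f) =
        x • (hb⁻¹ • (mulOp f * A - A * mulOp f)) := by
      refine LinearMap.ext fun g => ?_
      simp only [LinearMap.smul_apply, LinearMap.sub_apply, Module.End.mul_apply, mulOp,
        LinearMap.mulLeft_apply]
      simp only [Algebra.smul_def]
      ring
    rw [this]
    exact ih (hA.2 f hf)

theorem Good.of_zero {k : ℕ} : Good k (0 : Module.End F Lam) := by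
  induction k with
  | zero => intro g _; exact L.zero_mem
  | succ k ih =>
    refine ⟨fun g _ => L.zero_mem, fun f _ => ?_⟩
    simpa using ih

theorem Good.sum {k : ℕ} {ι : Type*} (s : Finset ι) (A : ι → Module.End F Lam)
    (hA : ∀ i ∈ s, Good k (A i)) : Good k (∑ i ∈ s, A i) := by
  classical
  induction s using Finset.induction_on with
  | empty => simpa using Good.of_zero
  | insert a s ha ih =>
    rw [Finset.sum_insert ha]
    exact (hA a (Finset.mem_insert_self _ _)).add
      (ih fun i hi => hA i (Finset.mem_insert_of_mem hi))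

@[simp] theorem mulOp_apply (f g : Lam) : mulOp f g = f * g := rfl

theorem mulOp_comm (f g : Lam) : mulOp f * mulOp g = mulOp g * mulOp f := by
  refine LinearMap.ext fun x => ?_
  simp only [Module.End.mul_apply, mulOp_apply]
  ring

theorem Good.mulOp {k : ℕ} {f : Lam} (hf : f ∈ L) : Good k (mulOp f) := by
  induction k with
  | zero => intro g hg; exact L.mul_mem hf hg
  | succ k ih =>
    refine ⟨fun g hg => L.mul_mem hf hg, fun g _ => ?_⟩
    rw [mulOp_comm, sub_self, smul_zero]
    exact Good.of_zero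

theorem Good.mul {k : ℕ} : ∀ {A B : Module.End F Lam}, Good k A → Good k B → Good k (A * B) := by
  induction k with
  | zero => intro A B hA hB g hg; exact hA _ (hB g hg)
  | succ k ih =>
    intro A B hA hB
    refine ⟨fun g hg => hA.1 _ (hB.1 g hg), fun f hf => ?_⟩
    have : hb⁻¹ • (Pool.Agent.Helper204.EH.mulOp f * (A * B) - (A * B) * Pool.Agent.Helper204.EH.mulOp f) =
        (hb⁻¹ • (Pool.Agent.Helper204.EH.mulOp f * A - A * Pool.Agent.Helper204.EH.mulOp f)) * B +
        A * (hb⁻¹ • (Pool.Agent.Helper204.EH.mulOp f * B - B * Pool.Agent.Helper204.EH.mulOp f)) := by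
      rw [smul_mul_assoc, mul_smul_comm, ← smul_add, sub_mul, mul_sub]
      congr 1
      simp only [mul_assoc]
      abel
    rw [this]
    exact (ih (hA.2 f hf) hB.pred).add (ih hA.pred (hB.2 f hf))

/-- A good operator agrees modulo `ħ` with multiplication by its value at `1`. -/
theorem Good.apply_sub {k : ℕ} {A : Module.End F Lam} (hA : Good (k + 1) A) {g : Lam}
    (hg : g ∈ L) : hb⁻¹ • (A g - A 1 * g) ∈ L := by
  have h1 := (hA.2 g hg).zero 1 L.one_mem
  have h2 : hb⁻¹ • (A g - A 1 * g) =
      - ((hb⁻¹ • (Pool.Agent.Helper204.EH.mulOp g * A - A * Pool.Agent.Helper204.EH.mulOp g)) 1) := by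
    simp only [LinearMap.smul_apply, LinearMap.sub_apply, Module.End.mul_apply, mulOp_apply,
      mul_one]
    simp only [Algebra.smul_def]
    ring
  rw [h2]
  exact L.neg_mem h1

/-- The commutator of two good operators is divisible by `ħ`. -/
theorem Good.comm {k : ℕ} : ∀ {A B : Module.End F Lam}, Good (k + 1) A → Good (k + 1) B →
    Good k (hb⁻¹ • (A * B - B * A)) := by
  induction k with
  | zero =>
    intro A B hA hB g hg
    have a1 := hA.zero 1 L.one_mem
    have b1 := hB.zero 1 L.one_mem
    have hA' := hA.apply_sub hg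
    have hB' := hB.apply_sub hg
    have c1 := (hA.2 _ b1).zero g hg
    have c2 := (hB.2 _ a1).zero g hg
    have d1 := hA.zero _ hB'
    have d2 := hB.zero _ hA'
    have key : (hb⁻¹ • (A * B - B * A)) g =
        A (hb⁻¹ • (B g - B 1 * g)) - B (hb⁻¹ • (A g - A 1 * g)) +
        B 1 * (hb⁻¹ • (A g - A 1 * g)) - A 1 * (hb⁻¹ • (B g - B 1 * g)) -
        (hb⁻¹ • (Pool.Agent.Helper204.EH.mulOp (B 1) * A -
          A * Pool.Agent.Helper204.EH.mulOp (B 1))) g +
        (hb⁻¹ • (Pool.Agent.Helper204.EH.mulOp (A 1) * B -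
          B * Pool.Agent.Helper204.EH.mulOp (A 1))) g := by
      simp only [LinearMap.smul_apply, LinearMap.sub_apply, Module.End.mul_apply, mulOp_apply,
        map_smul, map_sub]
      simp only [Algebra.smul_def]
      have e1 : A (g * B 1) = A (B 1 * g) := by rw [mul_comm]
      ring_nf
    rw [key]
    exact L.add_mem (L.sub_mem (L.sub_mem (L.add_mem (L.sub_mem d1 d2) (L.mul_mem b1 hA'))
      (L.mul_mem a1 hB')) c1) c2
  | succ k ih =>
    intro A B hA hB
    refine ⟨fun g hg => ?_, fun f hf => ?_⟩
    · have h0 : Good 0 (hb⁻¹ • (A * B - B * A)) := by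
        have hA1 : Good 1 A := by
          clear ih hB
          induction k with
          | zero => exact hA.pred
          | succ k ih' => exact ih' hA.pred
        have hB1 : Good 1 B := by
          clear ih hA hA1
          induction k with
          | zero => exact hB.pred
          | succ k ih' => exact ih' hB.pred
        exact (ih hA.pred hB.pred).zero
      exact h0 g hg
    · have h1 := ih (hA.2 f hf) hB.pred
      have h2 := ih hA.pred (hB.2 f hf)
      have key : hb⁻¹ • (Pool.Agent.Helper204.EH.mulOp f * (hb⁻¹ • (A * B - B * A)) -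
          (hb⁻¹ • (A * B - B * A)) * Pool.Agent.Helper204.EH.mulOp f) =
          hb⁻¹ • ((hb⁻¹ • (Pool.Agent.Helper204.EH.mulOp f * A -
            A * Pool.Agent.Helper204.EH.mulOp f)) * B -
            B * (hb⁻¹ • (Pool.Agent.Helper204.EH.mulOp f * A -
            A * Pool.Agent.Helper204.EH.mulOp f))) +
          hb⁻¹ • (A * (hb⁻¹ • (Pool.Agent.Helper204.EH.mulOp f * B -
            B * Pool.Agent.Helper204.EH.mulOp f)) -
            (hb⁻¹ • (Pool.Agent.Helper204.EH.mulOp f * B -
            B * Pool.Agent.Helper204.EH.mulOp f)) * A) := by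
        refine LinearMap.ext fun g => ?_
        simp only [LinearMap.smul_apply, LinearMap.sub_apply, LinearMap.add_apply,
          Module.End.mul_apply, mulOp_apply, map_smul, map_sub]
        simp only [Algebra.smul_def]
        ring
      rw [key]
      exact h1.add h2

/-- Good of every order. -/
def GoodAll (A : Module.End F Lam) : Prop := ∀ k, Good k A

theorem GoodAll.comm {A B : Module.End F Lam} (hA : GoodAll A) (hB : GoodAll B) :
    GoodAll (hb⁻¹ • (A * B - B * A)) := fun k => (hA (k + 1)).comm (hB (k + 1))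

theorem GoodAll.mul {A B : Module.End F Lam} (hA : GoodAll A) (hB : GoodAll B) :
    GoodAll (A * B) := fun k => (hA k).mul (hB k)

theorem GoodAll.add {A B : Module.End F Lam} (hA : GoodAll A) (hB : GoodAll B) :
    GoodAll (A + B) := fun k => (hA k).add (hB k)

theorem GoodAll.smul {x : F} (hx : x ∈ reg) {A : Module.End F Lam} (hA : GoodAll A) :
    GoodAll (x • A) := fun k => (hA k).smul hx

theorem GoodAll.sum {ι : Type*} (s : Finset ι) (A : ι → Module.End F Lam)
    (hA : ∀ i ∈ s, GoodAll (A i)) : GoodAll (∑ i ∈ s, A i) :=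
  fun k => Good.sum s A fun i hi => hA i hi k

theorem GoodAll.mulOp {f : Lam} (hf : f ∈ L) : GoodAll (mulOp f) := fun _ => Good.mulOp hf

theorem GoodAll.one : GoodAll (1 : Module.End F Lam) := by
  have h : (1 : Module.End F Lam) = Pool.Agent.Helper204.EH.mulOp 1 := by
    refine LinearMap.ext fun g => ?_
    simp
  rw [h]
  exact GoodAll.mulOp L.one_mem

/-- A good operator acts at `t = 1` as multiplication by its value at `1`. -/
theorem GoodAll.atOne_apply {A : Module.End F Lam} (hA : GoodAll A) {g : Lam} (hg : g ∈ L) :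
    A g ∈ L ∧ atOne (A g) = atOne (A 1) * atOne g := by
  have h1 := (hA 0).zero g hg
  have h2 := (hA 0).zero 1 L.one_mem
  refine ⟨h1, ?_⟩
  have h3 := (hA 1).apply_sub hg
  have h4 : A g = A 1 * g + hb • (hb⁻¹ • (A g - A 1 * g)) := by
    rw [smul_smul, mul_inv_cancel₀ hb_ne_zero, one_smul]
    ring
  conv_lhs => rw [h4]
  rw [atOne_add (L.mul_mem h2 hg) (smul_mem_L hb_mem h3), atOne_mul h2 hg,
    atOne_smul hb_mem h3, spec_hb, zero_smul, add_zero]

end

end Pool.Agent.Helper204.EH
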