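import Pool.Agent.Helper204.EHLin

set_option autoImplicit false

namespace Pool.Agent.Helper204.EH

noncomputable section

open MvPolynomial

section Ind

variable {R : Type} [Field R]

/-- All monomials of `f` have degree at least `s`. -/
def Ord (s : ℕ) (f : MvPolynomial ℕ+ R) : Prop := ∀ m : ℕ+ →₀ ℕ, m.degree < s → coeff m f = 0

theorem Ord.mul {s s' : ℕ} {f g : MvPolynomial ℕ+ R} (hf : Ord s f) (hg : Ord s' g) :
    Ord (s + s') (f * g) := by
  classical
  intro m hm
  rw [coeff_mul]
  refine Finset.sum_eq_zero fun x hx => ?_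
  rw [Finset.HasAntidiagonal.mem_antidiagonal] at hx
  have h1 : x.1.degree + x.2.degree = m.degree := by rw [← map_add, hx]
  rcases Nat.lt_or_ge x.1.degree s with h2 | h2
  · rw [hf _ h2, zero_mul]
  · rw [hg _ (by omega), mul_zero]

theorem Ord.add {s : ℕ} {f g : MvPolynomial ℕ+ R} (hf : Ord s f) (hg : Ord s g) :
    Ord s (f + g) := by
  intro m hm
  rw [coeff_add, hf m hm, hg m hm, add_zero]

theorem Ord.mono {s s' : ℕ} (h : s' ≤ s) {f : MvPolynomial ℕ+ R} (hf : Ord s f) : Ord s' f :=
  fun m hm => hf m (lt_of_lt_of_le hm h)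

theorem Ord.monomial (v : ℕ+ →₀ ℕ) (x : R) : Ord v.degree (monomial v x) := by
  classical
  intro m hm
  rw [coeff_monomial, if_neg]
  rintro rfl
  exact lt_irrefl _ hm

/-- The exponent vector attached to a multiset. -/
def mon (Dg : ℕ → ℕ) (S : Multiset ℕ) : ℕ+ →₀ ℕ :=
  (S.map fun i => Finsupp.single (Nat.toPNat' (Dg i)) 1).sum

theorem mon_degree (Dg : ℕ → ℕ) (S : Multiset ℕ) : (mon Dg S).degree = S.card := by
  unfold mon
  rw [map_multiset_sum, Multiset.map_map]
  simp

theorem mon_apply (Dg : ℕ → ℕ) (hD : ∀ i k, 0 < i → 0 < k → Dg i = Dg k → i = k)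
    (hD0 : ∀ i, 0 < i → 0 < Dg i) (S : Multiset ℕ) (hS : ∀ i ∈ S, 0 < i) (i : ℕ) (hi : 0 < i) :
    mon Dg S (Nat.toPNat' (Dg i)) = S.count i := by
  classical
  unfold mon
  induction S using Multiset.induction_on with
  | empty => simp
  | cons a S ih =>
    rw [Multiset.map_cons, Multiset.sum_cons, Finsupp.add_apply,
      ih fun k hk => hS k (Multiset.mem_cons_of_mem hk), Multiset.count_cons, add_comm]
    congr 1
    rw [Finsupp.single_apply]
    have ha : 0 < a := hS a (Multiset.mem_cons_self _ _)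
    by_cases h : i = a
    · rw [if_pos h, if_pos (by rw [h])]
    · rw [if_neg h, if_neg]
      intro h2
      apply h
      apply hD i a hi ha
      have h3 := congrArg PNat.val h2
      rw [Nat.toPNat'_coe (Dg a), Nat.toPNat'_coe (Dg i), if_pos (hD0 a ha),
        if_pos (hD0 i hi)] at h3
      exact h3.symm

theorem mon_inj (Dg : ℕ → ℕ) (hD : ∀ i k, 0 < i → 0 < k → Dg i = Dg k → i = k)
    (hD0 : ∀ i, 0 < i → 0 < Dg i) (S T : Multiset ℕ) (hS : ∀ i ∈ S, 0 < i)
    (hT : ∀ i ∈ T, 0 < i) (h : mon Dg S = mon Dg T) : S = T := by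
  classical
  refine Multiset.ext.2 fun i => ?_
  rcases Nat.eq_zero_or_pos i with hi | hi
  · subst hi
    rw [Multiset.count_eq_zero_of_notMem fun h0 => lt_irrefl _ (hS 0 h0),
      Multiset.count_eq_zero_of_notMem fun h0 => lt_irrefl _ (hT 0 h0)]
  · rw [← mon_apply Dg hD hD0 S hS i hi, ← mon_apply Dg hD hD0 T hT i hi, h]

variable (y : ℕ → MvPolynomial ℕ+ R) (Dg : ℕ → ℕ)

theorem prod_lead (hD0 : ∀ i, 0 < i → 0 < Dg i)
    (h0 : ∀ i, 0 < i → coeff 0 (y i) = 0)
    (h1 : ∀ i n, 0 < i → n ≠ Dg i → lin n (y i) = 0) (S : Multiset ℕ) (hS : ∀ i ∈ S, 0 < i) :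
    Ord (S.card + 1) ((S.map y).prod -
      MvPolynomial.monomial (mon Dg S) ((S.map fun i => lin (Dg i) (y i)).prod)) := by
  classical
  induction S using Multiset.induction_on with
  | empty =>
    intro m _
    simp [mon]
  | cons a S ih =>
    have hSS : ∀ i ∈ S, 0 < i := fun k hk => hS k (Multiset.mem_cons_of_mem hk)
    have ha : 0 < a := hS a (Multiset.mem_cons_self _ _)
    have ih' := ih hSS
    set P := (S.map y).prod with hP
    set κ := (S.map fun i => lin (Dg i) (y i)).prod with hκ
    have hz : Ord 2 (y a - MvPolynomial.monomial (Finsupp.single (Nat.toPNat' (Dg a)) 1)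
        (lin (Dg a) (y a))) := by
      intro m hm
      rw [coeff_sub, coeff_monomial]
      have hm' : m.degree = 0 ∨ m.degree = 1 := by omega
      rcases hm' with hm' | hm'
      · have : m = 0 := (Finsupp.degree_eq_zero_iff m).1 hm'
        subst this
        rw [h0 a ha, if_neg, sub_zero]
        intro h2
        have h3 := congrArg (fun v => v (Nat.toPNat' (Dg a))) h2
        simp at h3
      · obtain ⟨k, hk⟩ : ∃ k, m = Finsupp.single k 1 := by
          have h2 : m ∈ Set.range (fun a : ℕ+ => Finsupp.single a 1) := by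
            rw [Finsupp.range_single_one]
            exact hm'
          obtain ⟨k, hk⟩ := h2
          exact ⟨k, hk.symm⟩
        subst hk
        have hk : (k : ℕ) - 1 + 1 = (k : ℕ) := Nat.sub_add_cancel k.2
        have hk2 : Nat.succPNat ((k : ℕ) - 1) = k := PNat.eq hk
        by_cases h2 : (k : ℕ) = Dg a
        · have h3 : Nat.toPNat' (Dg a) = k := by
            apply PNat.eq
            rw [Nat.toPNat'_coe, if_pos (hD0 a ha), h2]
          rw [h3, if_pos rfl, ← h2, ← hk]
          show _ - coeff (Finsupp.single (Nat.succPNat ((k : ℕ) - 1)) 1) (y a) = 0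
          rw [hk2, sub_self]
        · rw [if_neg, sub_zero]
          · have h3 := h1 a k ha h2
            rw [← hk] at h3
            have h4 : coeff (Finsupp.single (Nat.succPNat ((k : ℕ) - 1)) 1) (y a) = 0 := h3
            rw [hk2] at h4
            exact h4
          · intro h3
            have h4 := Finsupp.single_left_injective (one_ne_zero) h3
            apply h2
            rw [← h4, Nat.toPNat'_coe, if_pos (hD0 a ha)]
    have hPo : Ord S.card P := by
      have h2 : P = MvPolynomial.monomial (mon Dg S) κ +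
          (P - MvPolynomial.monomial (mon Dg S) κ) := by ring
      rw [h2]
      refine Ord.add ?_ (ih'.mono (Nat.le_succ _))
      have h3 := Ord.monomial (mon Dg S) κ
      rw [mon_degree] at h3
      exact h3
    have hmo : Ord 1 (MvPolynomial.monomial (Finsupp.single (Nat.toPNat' (Dg a)) 1)
        (lin (Dg a) (y a))) := by
      have h3 := Ord.monomial (Finsupp.single (Nat.toPNat' (Dg a)) 1) (lin (Dg a) (y a))
      rw [Finsupp.degree_single] at h3
      exact h3
    have hmon : mon Dg (a ::ₘ S) = Finsupp.single (Nat.toPNat' (Dg a)) 1 + mon Dg S := by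
      unfold mon
      rw [Multiset.map_cons, Multiset.sum_cons]
    rw [Multiset.map_cons, Multiset.prod_cons, Multiset.map_cons, Multiset.prod_cons, hmon,
      ← hP, ← hκ, Multiset.card_cons]
    have key : y a * P - MvPolynomial.monomial (Finsupp.single (Nat.toPNat' (Dg a)) 1 + mon Dg S)
        (lin (Dg a) (y a) * κ) =
        (y a - MvPolynomial.monomial (Finsupp.single (Nat.toPNat' (Dg a)) 1)
        (lin (Dg a) (y a))) * P + MvPolynomial.monomial (Finsupp.single (Nat.toPNat' (Dg a)) 1)
        (lin (Dg a) (y a)) * (P - MvPolynomial.monomial (mon Dg S) κ) := by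
      have h5 : MvPolynomial.monomial (Finsupp.single (Nat.toPNat' (Dg a)) 1 + mon Dg S)
        (lin (Dg a) (y a) * κ) = MvPolynomial.monomial (Finsupp.single (Nat.toPNat' (Dg a)) 1)
        (lin (Dg a) (y a)) * MvPolynomial.monomial (mon Dg S) κ := by
        rw [MvPolynomial.monomial_mul]
      rw [h5]
      ring
    rw [key]
    refine Ord.add ?_ ?_
    · exact (hz.mul hPo).mono (by omega)
    · exact (hmo.mul ih').mono (by omega)

theorem indep (hD : ∀ i k, 0 < i → 0 < k → Dg i = Dg k → i = k)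
    (hD0 : ∀ i, 0 < i → 0 < Dg i)
    (h0 : ∀ i, 0 < i → coeff 0 (y i) = 0)
    (h1 : ∀ i n, 0 < i → n ≠ Dg i → lin n (y i) = 0)
    (h2 : ∀ i, 0 < i → lin (Dg i) (y i) ≠ 0) {d : ℕ} (c : Nat.Partition d → R)
    (h : ∑ μ : Nat.Partition d, c μ • (μ.parts.map y).prod = 0) : ∀ μ, c μ = 0 := by
  classical
  by_contra hne
  push Not at hne
  obtain ⟨μ1, hμ1⟩ := hne
  have hne' : (Finset.univ.filter fun μ : Nat.Partition d => c μ ≠ 0).Nonempty :=
    ⟨μ1, by simpa using hμ1⟩
  obtain ⟨μ0, hμ0, hmin⟩ := Finset.exists_min_image _ (fun μ => μ.parts.card) hne'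
  rw [Finset.mem_filter] at hμ0
  have h3 := congrArg (coeff (mon Dg μ0.parts)) h
  rw [coeff_sum, coeff_zero, Finset.sum_eq_single μ0] at h3
  · rw [coeff_smul] at h3
    have h4 := prod_lead y Dg hD0 h0 h1 μ0.parts (fun i hi => μ0.parts_pos hi)
      (mon Dg μ0.parts) (by rw [mon_degree]; exact Nat.lt_succ_self _)
    rw [coeff_sub, coeff_monomial, if_pos rfl, sub_eq_zero] at h4
    rw [h4, smul_eq_mul] at h3
    rcases mul_eq_zero.1 h3 with h5 | h5
    · exact hμ0.2 h5
    · rw [Multiset.prod_eq_zero_iff, Multiset.mem_map] at h5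
      obtain ⟨i, hi, hi'⟩ := h5
      exact h2 i (μ0.parts_pos hi) hi'
  · intro μ _ hμ
    rw [coeff_smul]
    by_cases hc : c μ = 0
    · rw [hc, zero_smul]
    · have h5 := hmin μ (by simpa using hc)
      have h4 := prod_lead y Dg hD0 h0 h1 μ.parts (fun i hi => μ.parts_pos hi)
        (mon Dg μ0.parts) (by rw [mon_degree]; omega)
      rw [coeff_sub, coeff_monomial, if_neg, sub_zero] at h4
      · rw [h4, smul_zero]
      · intro h6
        apply hμ
        have h7 := mon_inj Dg hD hD0 _ _ (fun i hi => μ.parts_pos hi)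
          (fun i hi => μ0.parts_pos hi) h6
        exact Nat.Partition.ext h7
  · intro h5
    exact absurd (Finset.mem_univ _) h5

end Ind

end

end Pool.Agent.Helper204.EH
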