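import Pool.Agent.Helper204.EHQ

set_option autoImplicit false

namespace Pool.Agent.Helper204.EH

noncomputable section

open MvPolynomial

/-- Polynomials in `w` with regular coefficients. -/
def RX : Subring (Polynomial F) where
  carrier := {P | ∀ i, P.coeff i ∈ reg}
  one_mem' := by
    intro i
    rw [Polynomial.coeff_one]
    split_ifs
    · exact reg.one_mem
    · exact reg.zero_mem
  zero_mem' := by
    intro i
    rw [Polynomial.coeff_zero]
    exact reg.zero_mem
  add_mem' := by
    intro x y hx hy i
    rw [Polynomial.coeff_add]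
    exact reg.add_mem (hx i) (hy i)
  mul_mem' := by
    intro x y hx hy i
    rw [Polynomial.coeff_mul]
    exact reg.sum_mem fun j _ => reg.mul_mem (hx _) (hy _)
  neg_mem' := by
    intro x hx i
    rw [Polynomial.coeff_neg]
    exact reg.neg_mem (hx i)

theorem C_mem_RX {x : F} (hx : x ∈ reg) : Polynomial.C x ∈ RX := by
  intro i
  rw [Polynomial.coeff_C]
  split_ifs
  · exact hx
  · exact reg.zero_mem

/-- Coefficient of `p_n` in `f` (zero for `n = 0`). -/
def lin {R : Type} [CommSemiring R] : ℕ → MvPolynomial ℕ+ R → R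
  | 0, _ => 0
  | m + 1, f => coeff (Finsupp.single (Nat.succPNat m) 1) f

theorem coeff_single_mul {R : Type} [CommSemiring R] (k : ℕ+) (f g : MvPolynomial ℕ+ R) :
    coeff (Finsupp.single k 1) (f * g) =
      coeff 0 f * coeff (Finsupp.single k 1) g + coeff (Finsupp.single k 1) f * coeff 0 g := by
  classical
  rw [coeff_mul, Finsupp.antidiagonal_single, Finset.sum_map, Finset.Nat.antidiagonal_succ]
  simp

theorem lin_mul {R : Type} [CommSemiring R] (n : ℕ) (f g : MvPolynomial ℕ+ R) :
    lin n (f * g) = coeff 0 f * lin n g + lin n f * coeff 0 g := by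
  cases n with
  | zero => simp [lin]
  | succ m => exact coeff_single_mul _ f g

theorem lin_mem {f : Lam} (hf : f ∈ L) (n : ℕ) : lin n f ∈ reg := by
  cases n with
  | zero => exact reg.zero_mem
  | succ m => exact hf _

theorem rep_lin : ∀ f ∈ L, ∃ X ∈ RX, rep f = Polynomial.C (coeff 0 f) + Polynomial.C hb * X ∧
    ∀ n, spec (X.coeff n) = -(n : K) * spec (lin n f) := by
  classical
  apply L_induction
  · intro x hx
    refine ⟨0, RX.zero_mem, ?_, ?_⟩
    · rw [rep_C, coeff_zero_C]
      simp
    · intro n
      have h1 : lin n (C x : Lam) = 0 := by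
        cases n with
        | zero => rfl
        | succ m =>
          show coeff (Finsupp.single (Nat.succPNat m) 1) (C x : Lam) = 0
          rw [coeff_C, if_neg]
          intro h2
          have := congrArg (fun v => v (Nat.succPNat m)) h2
          simp at this
      rw [h1]
      simp
  · intro k
    have h0 : (t⁻¹) ^ (k : ℕ) ∈ reg := reg.pow_mem IsU.t.inv_mem _
    refine ⟨Polynomial.monomial (k : ℕ) (-((t⁻¹) ^ (k : ℕ) * ∑ i ∈ Finset.range k, t ^ i)), ?_,
      ?_, ?_⟩
    · intro i
      rw [Polynomial.coeff_monomial]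
      split_ifs
      · exact reg.neg_mem (reg.mul_mem h0 (geom_mem _))
      · exact reg.zero_mem
    · rw [rep_X, coeff_zero_X, map_zero, zero_add, Polynomial.C_mul_monomial]
      congr 1
      have h1 := one_sub_t_pow (k : ℕ)
      have ht : t ^ (k : ℕ) * (t⁻¹) ^ (k : ℕ) = 1 := by
        rw [← mul_pow, mul_inv_cancel₀ t_ne_zero, one_pow]
      linear_combination (-(t⁻¹) ^ (k : ℕ)) * h1 + (-1 : F) * ht
    · intro n
      rw [Polynomial.coeff_monomial]
      have h1 : lin n (X k : Lam) = if (k : ℕ) = n then 1 else 0 := by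
        cases n with
        | zero => rw [if_neg (PNat.ne_zero k)]; rfl
        | succ m =>
          show coeff (Finsupp.single (Nat.succPNat m) 1) (X k : Lam) = _
          rw [coeff_X]
          by_cases h2 : (k : ℕ) = m + 1
          · have h3 : k = Nat.succPNat m := PNat.eq h2
            rw [if_pos h2, if_pos (by rw [h3])]
          · rw [if_neg h2, if_neg]
            intro h3
            have h4 := Finsupp.single_left_injective (one_ne_zero) h3
            apply h2
            rw [h4]
            rfl
      rw [h1]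
      split_ifs with h2
      · subst h2
        rw [spec_neg (reg.mul_mem h0 (geom_mem _)), spec_mul h0 (geom_mem _), spec_one]
        have h3 : spec ((t⁻¹) ^ (k : ℕ)) = 1 := by
          have h4 : (t⁻¹) ^ (k : ℕ) * t ^ (k : ℕ) = 1 := by
            rw [← mul_pow, inv_mul_cancel₀ t_ne_zero, one_pow]
          have h5 : ∀ n : ℕ, spec (t ^ n) = 1 := by
            intro n
            induction n with
            | zero => simp
            | succ n ih => rw [pow_succ, spec_mul (reg.pow_mem t_mem _) t_mem, ih, spec_t, one_mul]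
          have h6 := congrArg spec h4
          rw [spec_mul h0 (reg.pow_mem t_mem _), h5, mul_one, spec_one] at h6
          exact h6
        have h7 : spec (∑ i ∈ Finset.range (k : ℕ), t ^ i) = ((k : ℕ) : K) := by
          have h5 : ∀ n : ℕ, spec (t ^ n) = 1 := by
            intro n
            induction n with
            | zero => simp
            | succ n ih => rw [pow_succ, spec_mul (reg.pow_mem t_mem _) t_mem, ih, spec_t, one_mul]
          rw [spec_sum _ _ fun i _ => reg.pow_mem t_mem i]
          simp [h5]
        rw [h3, h7]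
        ring
      · simp
  · rintro f hf g hg ⟨U, hU, hU1, hU2⟩ ⟨V, hV, hV1, hV2⟩
    refine ⟨U + V, RX.add_mem hU hV, ?_, ?_⟩
    · rw [map_add, hU1, hV1, coeff_add, map_add]
      ring
    · intro n
      have h1 : lin n (f + g) = lin n f + lin n g := by
        cases n with
        | zero => simp [lin]
        | succ m => exact coeff_add _ _ _
      rw [Polynomial.coeff_add, spec_add (hU n) (hV n), hU2, hV2, h1,
        spec_add (lin_mem hf n) (lin_mem hg n)]
      ring
  · rintro f hf g hg ⟨U, hU, hU1, hU2⟩ ⟨V, hV, hV1, hV2⟩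
    refine ⟨Polynomial.C (coeff 0 f) * V + U * Polynomial.C (coeff 0 g) +
      Polynomial.C hb * (U * V), RX.add_mem (RX.add_mem (RX.mul_mem (C_mem_RX (hf 0)) hV)
        (RX.mul_mem hU (C_mem_RX (hg 0)))) (RX.mul_mem (C_mem_RX hb_mem) (RX.mul_mem hU hV)), ?_, ?_⟩
    · have h0 : coeff 0 (f * g) = coeff 0 f * coeff 0 g := by
        rw [← constantCoeff_eq, map_mul]
      rw [map_mul, hU1, hV1, h0, Polynomial.C_mul]
      ring
    · intro n
      have h1 : (U * V).coeff n ∈ reg := (RX.mul_mem hU hV) n
      rw [Polynomial.coeff_add, Polynomial.coeff_add, Polynomial.coeff_C_mul,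
        Polynomial.coeff_mul_C, Polynomial.coeff_C_mul,
        spec_add (reg.add_mem (reg.mul_mem (hf 0) (hV n)) (reg.mul_mem (hU n) (hg 0)))
          (reg.mul_mem hb_mem h1),
        spec_add (reg.mul_mem (hf 0) (hV n)) (reg.mul_mem (hU n) (hg 0)),
        spec_mul (hf 0) (hV n), spec_mul (hU n) (hg 0), spec_mul hb_mem h1, spec_hb, hU2, hV2,
        lin_mul, spec_add (reg.mul_mem (hf 0) (lin_mem hg n)) (reg.mul_mem (lin_mem hf n) (hg 0)),
        spec_mul (hf 0) (lin_mem hg n), spec_mul (lin_mem hf n) (hg 0)]
      ring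

/-- Linear part at `t = 1` of an element with a monomial image. -/
theorem lin_of_rep {f : Lam} (hf : f ∈ L) {c : F} (hc : IsU c) {D : ℕ} (hD : 0 < D)
    (h : rep f = Polynomial.C (hb * c) * Polynomial.X ^ D) :
    coeff 0 (atOne f) = 0 ∧ (∀ n, n ≠ D → lin n (atOne f) = 0) ∧ lin D (atOne f) ≠ 0 := by
  obtain ⟨X, hX, hX1, hX2⟩ := rep_lin f hf
  have h1 : ∀ n, hb * X.coeff n + (if n = 0 then coeff 0 f else 0) =
      if n = D then hb * c else 0 := by
    intro n
    have h2 := congrArg (fun P => Polynomial.coeff P n) (hX1.symm.trans h)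
    simp only [Polynomial.coeff_add, Polynomial.coeff_C_mul, Polynomial.coeff_X_pow,
      Polynomial.coeff_C] at h2
    rw [add_comm, h2]
    split_ifs <;> simp
  have hlin : ∀ n, lin n (atOne f) = spec (lin n f) := by
    intro n
    cases n with
    | zero => simp [lin]
    | succ m => exact coeff_atOne _ _
  have h0 : coeff 0 (atOne f) = 0 := by
    rw [coeff_atOne]
    have h2 := h1 0
    rw [if_pos rfl, if_neg hD.ne] at h2
    have h3 : coeff 0 f = hb * (-X.coeff 0) := by linear_combination h2
    rw [h3, spec_mul hb_mem (reg.neg_mem (hX 0)), spec_hb, zero_mul]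
  refine ⟨h0, ?_, ?_⟩
  · intro n hn
    rcases Nat.eq_zero_or_pos n with h2 | h2
    · subst h2
      rfl
    · have h3 := h1 n
      rw [if_neg h2.ne', if_neg hn, add_zero] at h3
      have h4 : X.coeff n = 0 := by
        rcases mul_eq_zero.1 h3 with h5 | h5
        · exact absurd h5 hb_ne_zero
        · exact h5
      have h6 := hX2 n
      rw [h4, spec_zero] at h6
      rw [hlin]
      have h7 : (n : K) ≠ 0 := by exact_mod_cast h2.ne'
      rcases mul_eq_zero.1 h6.symm with h8 | h8
      · exact absurd (neg_eq_zero.1 h8) h7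
      · exact h8
  · have h3 := h1 D
    rw [if_neg hD.ne', if_pos rfl, add_zero] at h3
    have h4 : X.coeff D = c := mul_left_cancel₀ hb_ne_zero h3
    have h6 := hX2 D
    rw [h4] at h6
    rw [hlin]
    intro h7
    rw [h7, mul_zero] at h6
    exact hc.2 h6

end

end Pool.Agent.Helper204.EH
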