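import Pool.Agent.Helper204.EHInd

set_option autoImplicit false

namespace Pool.Agent.Helper204.EH

noncomputable section

open MvPolynomial

theorem list_good (A : ℕ → Module.End F Lam) (hA : ∀ i, GoodAll (A i)) (l : List ℕ) :
    GoodAll (l.map A).prod ∧
      atOne ((l.map A).prod 1) = (l.map fun i => atOne (A i 1)).prod := by
  induction l with
  | nil => exact ⟨GoodAll.one, atOne_one⟩
  | cons a l ih =>
    rw [List.map_cons, List.prod_cons, List.map_cons, List.prod_cons]
    refine ⟨(hA a).mul ih.1, ?_⟩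
    have h1 : ((l.map A).prod 1) ∈ L := (ih.1 0).zero 1 L.one_mem
    have h2 := ((hA a).atOne_apply h1).2
    rw [← ih.2, ← h2]
    rfl

theorem QPart_good (σ ε δ : ℤˣ) (j a b : ℕ) {d : ℕ} (μ : Nat.Partition d) :
    GoodAll (QPart σ ε δ j a b μ) :=
  (list_good (fun i => Q σ ε δ j (a * i) (b * i)) (fun _ => Q_goodAll _ _ _ _ _ _) _).1

theorem atOne_QPart (σ ε δ : ℤˣ) (j a b : ℕ) {d : ℕ} (μ : Nat.Partition d) :
    atOne (QPart σ ε δ j a b μ 1) =
      (μ.parts.map fun i => atOne (Q σ ε δ j (a * i) (b * i) 1)).prod := by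
  have h := (list_good (fun i => Q σ ε δ j (a * i) (b * i)) (fun _ => Q_goodAll _ _ _ _ _ _)
    (μ.parts.sort (· ≥ ·))).2
  unfold QPart
  rw [h, ← Multiset.prod_coe, ← Multiset.map_coe, Multiset.sort_eq]

/-- If `f_d^{(1,1)}` is regular at `t = 1`, so are the coordinates of `f_d` in the basis `q_μ`. -/
theorem coord_regular (σ ε δ : ℤˣ) (j : ℕ) {d : ℕ} (c : Nat.Partition d → F)
    (h : Theta σ ε δ j 1 1 c 1 ∈ L) : ∀ μ, c μ ∈ reg := by
  classical
  have hex : ∃ r : ℕ, ∀ μ, hb ^ r * c μ ∈ reg := by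
    choose r hr using fun μ => exists_pow_mem (c μ)
    refine ⟨∑ μ, r μ, fun μ => ?_⟩
    have h1 : r μ ≤ ∑ μ, r μ := Finset.single_le_sum (fun _ _ => Nat.zero_le _) (Finset.mem_univ μ)
    obtain ⟨s, hs⟩ := Nat.exists_eq_add_of_le h1
    rw [hs, pow_add, mul_comm (hb ^ r μ), mul_assoc]
    exact reg.mul_mem (reg.pow_mem hb_mem _) (hr μ)
  have hmin := Nat.find_spec hex
  have hlt := fun r => Nat.find_min hex (m := r)
  rcases Nat.eq_zero_or_pos (Nat.find hex) with h0 | h0
  · intro μ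
    have := hmin μ
    rw [h0, pow_zero, one_mul] at this
    exact this
  · exfalso
    obtain ⟨r, hr⟩ : ∃ r, Nat.find hex = r + 1 := ⟨Nat.find hex - 1, by omega⟩
    rw [hr] at hmin
    apply hlt r (by omega)
    -- the values
    have hQ1 : ∀ μ : Nat.Partition d, QPart σ ε δ j 1 1 μ 1 ∈ L := fun μ =>
      (QPart_good σ ε δ j 1 1 μ 0).zero 1 L.one_mem
    have hsum : ∑ μ : Nat.Partition d, (hb ^ (r + 1) * c μ) • QPart σ ε δ j 1 1 μ 1 =
        hb • (hb ^ r • Theta σ ε δ j 1 1 c 1) := by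
      unfold Theta
      rw [LinearMap.sum_apply, Finset.smul_sum, Finset.smul_sum]
      refine Finset.sum_congr rfl fun μ _ => ?_
      rw [LinearMap.smul_apply, smul_smul, smul_smul, pow_succ]
      congr 1
      ring
    have hsum' := congrArg atOne hsum
    rw [atOne_sum _ _ fun μ _ => smul_mem_L (hmin μ) (hQ1 μ),
      atOne_smul hb_mem (smul_mem_L (reg.pow_mem hb_mem _) h), spec_hb, zero_smul] at hsum'
    have hsum2 : ∑ μ : Nat.Partition d, spec (hb ^ (r + 1) * c μ) •
        (μ.parts.map fun i => atOne (Q σ ε δ j (1 * i) (1 * i) 1)).prod = 0 := by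
      rw [← hsum']
      refine Finset.sum_congr rfl fun μ _ => ?_
      rw [atOne_smul (hmin μ) (hQ1 μ), atOne_QPart]
    have hlin : ∀ i, 0 < i →
        coeff 0 (atOne (Q σ ε δ j (1 * i) (1 * i) 1)) = 0 ∧
        (∀ n, n ≠ i + j * i → lin n (atOne (Q σ ε δ j (1 * i) (1 * i) 1)) = 0) ∧
        lin (i + j * i) (atOne (Q σ ε δ j (1 * i) (1 * i) 1)) ≠ 0 := by
      intro i hi
      rw [one_mul]
      obtain ⟨c', s, hc, hs, hrep⟩ := Q_rep σ ε δ j _ i i le_rfl (Or.inl ⟨hi, hi⟩)
      have h1 : Q σ ε δ j i i 1 ∈ L := (Q_goodAll σ ε δ j i i 0).zero 1 L.one_mem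
      refine lin_of_rep h1 hc (by omega) ?_
      have h2 := hrep 1
      rw [h2, hs hi, zero_smul, add_zero, map_one, W_apply, map_one, mul_one,
        Polynomial.smul_eq_C_mul]
    have hzero := indep (fun i => atOne (Q σ ε δ j (1 * i) (1 * i) 1)) (fun i => i + j * i)
      (by
        intro i k hi hk hik
        have h1 : (1 + j) * i = (1 + j) * k := by
          have h2 : i + j * i = k + j * k := hik
          rw [add_mul, add_mul, one_mul, one_mul, h2]
        exact Nat.eq_of_mul_eq_mul_left (by omega) h1)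
      (by intro i hi; show 0 < i + j * i; omega)
      (fun i hi => (hlin i hi).1) (fun i n hi hn => (hlin i hi).2.1 n hn)
      (fun i hi => (hlin i hi).2.2) (fun μ => spec (hb ^ (r + 1) * c μ)) hsum2
    intro μ
    have h3 := div_hb_mem (hmin μ) (hzero μ)
    have h4 : hb⁻¹ * (hb ^ (r + 1) * c μ) = hb ^ r * c μ := by
      rw [pow_succ, ← mul_assoc, mul_comm (hb ^ r) hb, ← mul_assoc, inv_mul_cancel₀ hb_ne_zero,
        one_mul]
    rw [h4] at h3
    exact h3

theorem evalQT_mem (P : MvPolynomial (Fin 2) ℕ) : evalQT P ∈ reg := by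
  unfold evalQT
  induction P using MvPolynomial.induction_on with
  | C a =>
    rw [MvPolynomial.aeval_C]
    simp
  | add P Q hP hQ =>
    rw [map_add]
    exact reg.add_mem hP hQ
  | mul_X P i hP =>
    rw [map_mul, MvPolynomial.aeval_X]
    refine reg.mul_mem hP ?_
    fin_cases i
    · exact q_mem
    · exact t_mem

theorem SchurPositive.mem {f : Lam} (h : SchurPositive f) : f ∈ L := by
  obtain ⟨c, rfl⟩ := h
  exact L.sum_mem fun μ _ => L.mul_mem (C_mem_L (evalQT_mem _)) (schur_mem _)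

theorem main (σ ε δ : ℤˣ) (j d : ℕ) (c : Nat.Partition d → F)
    (hc : IsSeed σ ε δ j c ∨ RegularAtOne (fab σ ε δ j 1 1 c)) (a b : ℕ)
    (g : MvPolynomial ℕ+ K) :
    RegularAtOne (app (Theta σ ε δ j a b c) (lift g)) ∧
      atOne (app (Theta σ ε δ j a b c) (lift g)) = atOne (fab σ ε δ j a b c) * g := by
  have h1 : Theta σ ε δ j 1 1 c 1 ∈ L := by
    rcases hc with h | h
    · exact (h 1 1 le_rfl le_rfl (Nat.coprime_one_left 1)).mem
    · exact h
  have h2 := coord_regular σ ε δ j c h1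
  have h3 : GoodAll (Theta σ ε δ j a b c) :=
    GoodAll.sum _ _ fun μ _ => (QPart_good σ ε δ j a b μ).smul (h2 μ)
  have h4 := h3.atOne_apply (lift_mem g)
  rw [atOne_lift] at h4
  exact h4

end

end Pool.Agent.Helper204.EH
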