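import Pool.Agent.Helper204.EHRep

set_option autoImplicit false

namespace Pool.Agent.Helper204.EH

noncomputable section

open MvPolynomial

theorem h_zero : h 0 = 1 := by rw [h]

theorem h_succ (n : ℕ) : h (n + 1) = MvPolynomial.C ((n + 1 : F)⁻¹) *
      ∑ i : Fin (n + 1), h (n - i) * p (Nat.succPNat i) := by
  rw [h]

theorem h_mem (n : ℕ) : h n ∈ L := by
  induction n using Nat.strong_induction_on with
  | _ n ih =>
    cases n with
    | zero => rw [h_zero]; exact L.one_mem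
    | succ n =>
      rw [h_succ]
      refine L.mul_mem (C_mem_L (nat_inv_mem n)) (L.sum_mem fun i _ => ?_)
      exact L.mul_mem (ih _ (by omega)) (X_mem_L _)

theorem hInt_mem (n : ℤ) : hInt n ∈ L := by
  unfold hInt
  split_ifs
  · exact h_mem _
  · exact L.zero_mem

theorem schur_mem (l : List ℕ) : schur l ∈ L := by
  unfold schur
  rw [Matrix.det_apply]
  refine L.sum_mem fun τ _ => ?_
  have h1 : (∏ i, (Matrix.of fun i j : Fin l.length => hInt ((l.get i : ℤ) - (i : ℤ) + (j : ℤ)))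
      (τ i) i) ∈ L := L.prod_mem fun i _ => hInt_mem _
  rcases Int.units_eq_one_or (Equiv.Perm.sign τ) with h2 | h2 <;> rw [h2]
  · simpa using h1
  · rw [Units.neg_smul, one_smul]
    exact L.neg_mem h1

theorem qfun_mem (d : ℕ) : qfun d ∈ L := by
  unfold qfun
  refine L.sum_mem fun j _ => L.mul_mem (C_mem_L ?_) (schur_mem _)
  exact (((IsU.q.mul IsU.t).neg).pow j).inv_mem

theorem h_one : h 1 = X 1 := by
  rw [h_succ, Fin.sum_univ_eq_sum_range (fun i => h (0 - i) * p (Nat.succPNat i)) (0 + 1)]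
  simp [h_zero]
  rfl

/-- `q_1 = p_1 = e_1`. -/
theorem qfun_one : qfun 1 = X 1 := by
  unfold qfun
  rw [Finset.sum_range_one]
  simp only [pow_zero, inv_one, map_one, one_mul]
  unfold schur
  have h1 : (0 + 1) :: List.replicate (1 - 1 - 0) 1 = [1] := rfl
  rw [h1]
  have h2 : Matrix.det (Matrix.of fun i j : Fin ([1] : List ℕ).length =>
      hInt ((([1] : List ℕ).get i : ℤ) - (i : ℤ) + (j : ℤ))) =
      hInt ((([1] : List ℕ).get 0 : ℤ) - ((0 : Fin 1) : ℤ) + ((0 : Fin 1) : ℤ)) :=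
    Matrix.det_fin_one _
  rw [h2]
  have h3 : hInt ((([1] : List ℕ).get 0 : ℤ) - ((0 : Fin 1) : ℤ) + ((0 : Fin 1) : ℤ)) = h 1 := by
    unfold hInt
    simp
  rw [h3, h_one]

theorem GoodAll.zsmul (z : ℤ) {A : Module.End F Lam} (hA : GoodAll A) : GoodAll (z • A) := by
  rw [← Int.cast_smul_eq_zsmul F]
  exact hA.smul (by simp)

theorem Q_zero (σ ε δ : ℤˣ) (j n : ℕ) : Q σ ε δ j 0 n = (δ : ℤ) • mulOp (qfun n) := by
  rw [Q]

theorem Q_succ_zero (σ ε δ : ℤˣ) (j m : ℕ) :
    Q σ ε δ j (m + 1) 0 = ((ε : ℤ) ^ (m + 1)) • D (j * (m + 1) : ℕ) := by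
  rw [Q]

theorem Q_step (σ ε δ : ℤˣ) (j m n : ℕ) (hm : 0 < m) (hn : 0 < n) :
    Q σ ε δ j m n = M⁻¹ • ((σ : ℤ) •
        (Q σ ε δ j (m - kk m n) (n - ll m n) * Q σ ε δ j (kk m n) (ll m n) -
          Q σ ε δ j (kk m n) (ll m n) * Q σ ε δ j (m - kk m n) (n - ll m n))) := by
  obtain ⟨m, rfl⟩ : ∃ m', m = m' + 1 := ⟨m - 1, by omega⟩
  obtain ⟨n, rfl⟩ : ∃ n', n = n' + 1 := ⟨n - 1, by omega⟩
  rw [Q]
  rfl

theorem Q_good (σ ε δ : ℤˣ) (j : ℕ) : ∀ N m n : ℕ, m + n ≤ N → GoodAll (Q σ ε δ j m n) := by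
  intro N
  induction N with
  | zero =>
    intro m n hmn
    obtain rfl : m = 0 := by omega
    rw [Q_zero]
    exact (GoodAll.mulOp (qfun_mem _)).zsmul _
  | succ N ih =>
    intro m n hmn
    rcases Nat.eq_zero_or_pos m with hm | hm
    · subst hm
      rw [Q_zero]
      exact (GoodAll.mulOp (qfun_mem _)).zsmul _
    rcases Nat.eq_zero_or_pos n with hn | hn
    · subst hn
      obtain ⟨m, rfl⟩ : ∃ m', m = m' + 1 := ⟨m - 1, by omega⟩
      rw [Q_succ_zero]
      exact (D_goodAll _).zsmul _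
    obtain ⟨b1, b2, b3⟩ := split_bounds m n hm hn
    rw [Q_step σ ε δ j m n hm hn]
    have h1 := ih (m - kk m n) (n - ll m n) (by omega)
    have h2 := ih (kk m n) (ll m n) (by omega)
    have h3 := h1.comm h2
    have h4 : M⁻¹ • ((σ : ℤ) •
        (Q σ ε δ j (m - kk m n) (n - ll m n) * Q σ ε δ j (kk m n) (ll m n) -
          Q σ ε δ j (kk m n) (ll m n) * Q σ ε δ j (m - kk m n) (n - ll m n))) =
        (1 - q)⁻¹ • ((σ : ℤ) • (hb⁻¹ •
        (Q σ ε δ j (m - kk m n) (n - ll m n) * Q σ ε δ j (kk m n) (ll m n) -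
          Q σ ε δ j (kk m n) (ll m n) * Q σ ε δ j (m - kk m n) (n - ll m n)))) := by
      rw [M_eq, mul_inv, mul_smul, smul_comm hb⁻¹ (σ : ℤ)]
    rw [h4]
    exact (h3.zsmul _).smul IsU.one_sub_q.inv_mem

theorem Q_goodAll (σ ε δ : ℤˣ) (j m n : ℕ) : GoodAll (Q σ ε δ j m n) :=
  Q_good σ ε δ j _ m n le_rfl

theorem IsU.unit (σ : ℤˣ) : IsU (((σ : ℤ) : F)) := by
  rcases Int.units_eq_one_or σ with h | h <;> rw [h]
  · simpa using IsU.one
  · simpa using IsU.one.neg

theorem W_zero_apply (b : ℕ) (x : Polynomial F) : W 0 b x = Sb b x := by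
  rw [W_apply, pow_zero, one_mul]

theorem Sb_zero (x : Polynomial F) : Sb 0 x = x := by
  unfold Sb
  simp

theorem Q_rep (σ ε δ : ℤˣ) (j : ℕ) : ∀ N m n : ℕ, m + n ≤ N →
    ((1 ≤ m ∧ 1 ≤ n) ∨ (m = 1 ∧ n = 0) ∨ (m = 0 ∧ n = 1)) →
    ∃ c s, IsU c ∧ (1 ≤ n → s = 0) ∧ IsRep (Q σ ε δ j m n) (n + j * m) m c s := by
  intro N
  induction N with
  | zero =>
    intro m n hmn h
    omega
  | succ N ih =>
    intro m n hmn h
    rcases h with ⟨hm, hn⟩ | ⟨hm, hn⟩ | ⟨hm, hn⟩
    · obtain ⟨b1, b2, b3⟩ := split_bounds m n hm hn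
      have hdet := split_det m n hm hn
      have hg : 0 < m.gcd n := Nat.gcd_pos_of_pos_left _ hm
      have c1 : (1 ≤ kk m n ∧ 1 ≤ ll m n) ∨ (kk m n = 1 ∧ ll m n = 0) ∨
          (kk m n = 0 ∧ ll m n = 1) := by
        rcases Nat.eq_zero_or_pos (kk m n) with h0 | h0
        · right; right
          refine ⟨h0, ?_⟩
          rw [h0, Nat.sub_zero, Nat.mul_zero, Nat.zero_add] at hdet
          have h1 : m.gcd n ≤ m := Nat.le_of_dvd hm (Nat.gcd_dvd_left _ _)
          rw [← hdet] at h1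
          have h2 : m * ll m n ≤ m * 1 := by rw [mul_one]; exact h1
          have := Nat.le_of_mul_le_mul_left h2 hm
          omega
        · left
          exact ⟨h0, b2⟩
      have c2 : (1 ≤ m - kk m n ∧ 1 ≤ n - ll m n) ∨ (m - kk m n = 1 ∧ n - ll m n = 0) ∨
          (m - kk m n = 0 ∧ n - ll m n = 1) := by
        rcases Nat.eq_zero_or_pos (n - ll m n) with h0 | h0
        · right; left
          refine ⟨?_, h0⟩
          rw [h0, Nat.zero_mul, Nat.zero_add] at hdet
          have h1 : m.gcd n ≤ n := Nat.le_of_dvd hn (Nat.gcd_dvd_right _ _)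
          have h3 : ll m n = n := by omega
          rw [← hdet, h3] at h1
          have h2 : (m - kk m n) * n ≤ 1 * n := by rw [one_mul]; exact h1
          have := Nat.le_of_mul_le_mul_right h2 hn
          omega
        · left
          exact ⟨by omega, h0⟩
      obtain ⟨c, s, hc, hs, hr⟩ := ih (m - kk m n) (n - ll m n) (by omega) c2
      obtain ⟨c', s', hc', hs', hr'⟩ := ih (kk m n) (ll m n) (by omega) c1
      obtain ⟨u, hu⟩ : ∃ u, m = kk m n + u := ⟨m - kk m n, by omega⟩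
      obtain ⟨v, hv⟩ : ∃ v, n = ll m n + v := ⟨n - ll m n, by omega⟩
      have e1 : m - kk m n = u := by omega
      have e2 : n - ll m n = v := by omega
      rw [Q_step σ ε δ j m n hm hn]
      rw [e1, e2] at hr hdet ⊢
      refine ⟨-((σ : ℤ) : F) * (c * c' * (q ^ (kk m n * (v + j * u)) *
        ∑ i ∈ Finset.range (m.gcd n), q ^ i)), 0, ?_, fun _ => rfl, ?_⟩
      · exact ((IsU.unit σ).neg).mul ((hc.mul hc').mul ((IsU.q.pow _).mul (IsU.qnum hg)))
      · have h1 := hr.comm σ hr' (x := kk m n * (v + j * u)) (d := m.gcd n) (by nlinarith) rfl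
        have e3 : v + j * u + (ll m n + j * kk m n) = n + j * m := by
          have e5 : j * m = j * kk m n + j * u := by rw [← mul_add, ← hu]
          omega
        have e4 : u + kk m n = m := by omega
        rw [e3, e4] at h1
        exact h1
    · subst hm; subst hn
      refine ⟨((ε : ℤ) : F) * (t⁻¹) ^ j, ((ε : ℤ) : F) * (if j = 0 then t else 0),
        (IsU.unit ε).mul (IsU.t.inv.pow j), fun h => absurd h (by omega), ?_⟩
      intro g
      rw [Q_succ_zero, ← Int.cast_smul_eq_zsmul F, LinearMap.smul_apply, map_smul]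
      simp only [Nat.zero_add, pow_one, mul_one]
      rw [rep_D, W_apply, Polynomial.smul_eq_C_mul, Polynomial.smul_eq_C_mul,
        Polynomial.smul_eq_C_mul]
      simp only [Polynomial.C_mul]
      ring
    · subst hm; subst hn
      refine ⟨-(((δ : ℤ) : F) * t⁻¹), 0, ((IsU.unit δ).mul IsU.t.inv).neg, fun _ => rfl, ?_⟩
      intro g
      rw [Q_zero, ← Int.cast_smul_eq_zsmul F, LinearMap.smul_apply, map_smul, mulOp_apply,
        map_mul, qfun_one, rep_X, W_apply, Sb_zero, zero_smul, add_zero]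
      simp only [mul_zero, add_zero, pow_one, PNat.one_coe]
      rw [Polynomial.smul_eq_C_mul, Polynomial.smul_eq_C_mul, ← mul_assoc, ← mul_assoc,
        Polynomial.C_mul_monomial, ← Polynomial.C_mul_X_eq_monomial]
      congr 3
      unfold hb
      have ht : t * t⁻¹ = 1 := mul_inv_cancel₀ t_ne_zero
      linear_combination (((δ : ℤ) : F)) * (-ht)

end

end Pool.Agent.Helper204.EH
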