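import Pool.Agent.Helper204.EHDefs

set_option autoImplicit false

namespace Pool.Agent.Helper204.EH

noncomputable section

/-- Elements of `ℚ(q)(t)` regular at `t = 1`. -/
def reg : Subring F where
  carrier := {x | (RatFunc.denom x).eval 1 ≠ 0}
  one_mem' := by simp
  zero_mem' := by simp
  add_mem' := by
    intro x y hx hy h
    have h1 := Polynomial.eval_dvd (x := (1 : K)) (RatFunc.denom_add_dvd x y)
    rw [h, zero_dvd_iff, Polynomial.eval_mul] at h1
    exact (mul_ne_zero hx hy) h1
  mul_mem' := by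
    intro x y hx hy h
    have h1 := Polynomial.eval_dvd (x := (1 : K)) (RatFunc.denom_mul_dvd x y)
    rw [h, zero_dvd_iff, Polynomial.eval_mul] at h1
    exact (mul_ne_zero hx hy) h1
  neg_mem' := by
    intro x hx
    have h1 : (RatFunc.denom (-x)).eval 1 ≠ 0 := by
      intro h
      have h2 : RatFunc.denom (-x) ∣ RatFunc.denom x * 1 := by
        have h3 := RatFunc.denom_mul_dvd x (RatFunc.C (-1 : K))
        rw [RatFunc.denom_C] at h3
        have h4 : x * RatFunc.C (-1 : K) = -x := by simp
        rw [h4] at h3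
        exact h3
      have h5 := Polynomial.eval_dvd (x := (1 : K)) h2
      rw [h, zero_dvd_iff, mul_one] at h5
      exact hx h5
    exact h1

/-- Specialisation at `t = 1`. -/
def spec (x : F) : K := RatFunc.eval (RingHom.id K) 1 x

theorem mem_reg {x : F} : x ∈ reg ↔ (RatFunc.denom x).eval 1 ≠ 0 := Iff.rfl

theorem spec_add {x y : F} (hx : x ∈ reg) (hy : y ∈ reg) : spec (x + y) = spec x + spec y :=
  RatFunc.eval_add _ _ hx hy

theorem spec_mul {x y : F} (hx : x ∈ reg) (hy : y ∈ reg) : spec (x * y) = spec x * spec y :=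
  RatFunc.eval_mul _ _ hx hy

@[simp] theorem spec_zero : spec 0 = 0 := RatFunc.eval_zero _ _
@[simp] theorem spec_one : spec 1 = 1 := RatFunc.eval_one _ _

theorem C_mem (a : K) : (RatFunc.C a : F) ∈ reg := by simp [mem_reg]
@[simp] theorem spec_C (a : K) : spec (RatFunc.C a) = a := by simp [spec]

theorem t_mem : t ∈ reg := by simp [mem_reg, t]
@[simp] theorem spec_t : spec t = 1 := by simp [spec, t]

/-- `ħ = 1 - t`. -/
def hb : F := 1 - t

theorem t_ne_zero : t ≠ 0 := RatFunc.X_ne_zero

theorem hb_ne_zero : hb ≠ 0 := by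
  intro h
  have h1 : t = 1 := (sub_eq_zero.1 h).symm
  have h2 : RatFunc.num (t : F) = RatFunc.num (1 : F) := by rw [h1]
  simp [t] at h2
  exact Polynomial.X_ne_C (1 : K) (by simpa using h2)

/-- `spec` as a ring homomorphism on regular elements. -/
def specHom : reg →+* K where
  toFun x := spec x
  map_one' := spec_one
  map_mul' x y := spec_mul x.2 y.2
  map_zero' := spec_zero
  map_add' x y := spec_add x.2 y.2

theorem hb_mem : hb ∈ reg := reg.sub_mem reg.one_mem t_mem

theorem spec_neg {x : F} (hx : x ∈ reg) : spec (-x) = - spec x :=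
  map_neg specHom (⟨x, hx⟩ : reg)

theorem spec_sub {x y : F} (hx : x ∈ reg) (hy : y ∈ reg) : spec (x - y) = spec x - spec y :=
  map_sub specHom (⟨x, hx⟩ : reg) ⟨y, hy⟩

@[simp] theorem spec_hb : spec hb = 0 := by
  unfold hb; rw [spec_sub reg.one_mem t_mem]; simp

theorem spec_sum {ι : Type*} (s : Finset ι) (f : ι → F) (hf : ∀ i ∈ s, f i ∈ reg) :
    spec (∑ i ∈ s, f i) = ∑ i ∈ s, spec (f i) := by
  classical
  induction s using Finset.induction_on with
  | empty => simp
  | insert a s ha ih =>
    rw [Finset.sum_insert ha, Finset.sum_insert ha, spec_add (hf a (Finset.mem_insert_self _ _))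
      (reg.sum_mem fun i hi => hf i (Finset.mem_insert_of_mem hi)),
      ih fun i hi => hf i (Finset.mem_insert_of_mem hi)]

/-- A regular element vanishing at `t = 1` is divisible by `ħ`. -/
theorem div_hb_mem {x : F} (hx : x ∈ reg) (h0 : spec x = 0) : hb⁻¹ * x ∈ reg := by
  have h1 : spec x = (RatFunc.num x).eval 1 / (RatFunc.denom x).eval 1 := by
    unfold spec RatFunc.eval
    simp [Polynomial.eval₂_eq_eval_map]
  rw [h1] at h0
  have h2 : (RatFunc.num x).eval 1 = 0 := by
    rcases div_eq_zero_iff.1 h0 with h | h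
    · exact h
    · exact absurd h hx
  have h3 : (Polynomial.X - Polynomial.C 1) ∣ RatFunc.num x :=
    Polynomial.dvd_iff_isRoot.2 h2
  obtain ⟨g, hg⟩ := h3
  have h4 : hb⁻¹ * x = algebraMap _ F (-g) / algebraMap _ F (RatFunc.denom x) := by
    conv_lhs => rw [← RatFunc.num_div_denom x, hg]
    have h5 : (algebraMap (Polynomial K) F) (Polynomial.X - Polynomial.C 1) = - hb := by
      simp [hb, t]
    rw [map_mul, h5, map_neg]
    field_simp [hb_ne_zero]
  rw [mem_reg, h4]
  intro h6
  have h7 := Polynomial.eval_dvd (x := (1 : K)) (RatFunc.denom_div_dvd (-g) (RatFunc.denom x))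
  rw [h6, zero_dvd_iff] at h7
  exact hx h7

/-- Every element becomes regular after multiplication by a power of `ħ`. -/
theorem exists_pow_mem (x : F) : ∃ r : ℕ, hb ^ r * x ∈ reg := by
  obtain ⟨g, hg, hg'⟩ := Polynomial.exists_eq_pow_rootMultiplicity_mul_and_not_dvd
    (RatFunc.denom x) (RatFunc.denom_ne_zero x) (1 : K)
  refine ⟨Polynomial.rootMultiplicity 1 (RatFunc.denom x), ?_⟩
  generalize Polynomial.rootMultiplicity 1 (RatFunc.denom x) = r at *
  have hgne : g ≠ 0 := by
    rintro rfl
    exact hg' (dvd_zero _)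
  have h5 : (algebraMap (Polynomial K) F) (Polynomial.X - Polynomial.C 1) = - hb := by
    simp [hb, t]
  have key : ∀ (H P G a : F), H ≠ 0 → G ≠ 0 → a * a = 1 → H * (P / (a * H * G)) = a * P / G := by
    intro H P G a hH hG ha
    have ha0 : a ≠ 0 := by rintro rfl; simp at ha
    field_simp
    linear_combination (-P) * ha
  have h4 : hb ^ r * x = algebraMap _ F ((-1) ^ r * RatFunc.num x) / algebraMap _ F g := by
    conv_lhs => rw [← RatFunc.num_div_denom x, hg]
    have h6 : algebraMap (Polynomial K) F g ≠ 0 := RatFunc.algebraMap_ne_zero hgne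
    rw [map_mul, map_pow, h5, map_mul, map_pow, map_neg, map_one, neg_pow]
    exact key _ _ _ _ (pow_ne_zero _ hb_ne_zero) h6 (by rw [← mul_pow]; simp)
  rw [mem_reg, h4]
  intro h6
  have h7 := Polynomial.eval_dvd (x := (1 : K)) (RatFunc.denom_div_dvd ((-1) ^ r * RatFunc.num x) g)
  rw [h6, zero_dvd_iff] at h7
  exact hg' (Polynomial.dvd_iff_isRoot.2 h7)

end

end Pool.Agent.Helper204.EH
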