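import Pool.Agent.Helper204.EHD

set_option autoImplicit false

namespace Pool.Agent.Helper204.EH

noncomputable section

open MvPolynomial

/-- Units at `t = 1`. -/
def IsU (x : F) : Prop := x ∈ reg ∧ spec x ≠ 0

theorem IsU.mul {x y : F} (hx : IsU x) (hy : IsU y) : IsU (x * y) :=
  ⟨reg.mul_mem hx.1 hy.1, by rw [spec_mul hx.1 hy.1]; exact mul_ne_zero hx.2 hy.2⟩

theorem IsU.neg {x : F} (hx : IsU x) : IsU (-x) :=
  ⟨reg.neg_mem hx.1, by rw [spec_neg hx.1]; exact neg_ne_zero.2 hx.2⟩

theorem IsU.one : IsU 1 := ⟨reg.one_mem, by simp⟩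

theorem IsU.pow {x : F} (hx : IsU x) (n : ℕ) : IsU (x ^ n) := by
  induction n with
  | zero => rw [pow_zero]; exact IsU.one
  | succ n ih => rw [pow_succ]; exact ih.mul hx

theorem IsU.inv_mem {x : F} (hx : IsU x) : x⁻¹ ∈ reg := by
  have h1 : spec x = (RatFunc.num x).eval 1 / (RatFunc.denom x).eval 1 := by
    unfold spec RatFunc.eval
    simp [Polynomial.eval₂_eq_eval_map]
  have h2 : (RatFunc.num x).eval 1 ≠ 0 := by
    intro h
    apply hx.2
    rw [h1, h, zero_div]
  have h3 : x ≠ 0 := by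
    rintro rfl
    exact hx.2 spec_zero
  intro h6
  have h7 := Polynomial.eval_dvd (x := (1 : K)) (RatFunc.denom_inv_dvd h3)
  rw [h6, zero_dvd_iff] at h7
  exact h2 h7

theorem IsU.inv {x : F} (hx : IsU x) : IsU x⁻¹ := by
  refine ⟨hx.inv_mem, ?_⟩
  have h3 : x ≠ 0 := by
    rintro rfl
    exact hx.2 spec_zero
  have h4 : spec x * spec x⁻¹ = 1 := by
    rw [← spec_mul hx.1 hx.inv_mem, mul_inv_cancel₀ h3, spec_one]
  intro h5
  rw [h5, mul_zero] at h4
  exact zero_ne_one h4

theorem IsU.t : IsU t := ⟨t_mem, by simp⟩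

theorem spec_q : spec q = RatFunc.X := spec_C _

theorem IsU.q : IsU q := ⟨q_mem, by rw [spec_q]; exact RatFunc.X_ne_zero⟩

theorem IsU.ne_zero {x : F} (hx : IsU x) : x ≠ 0 := by
  rintro rfl
  exact hx.2 spec_zero

theorem X_ne_one' : (RatFunc.X : K) ≠ 1 := by
  intro h1
  have h2 : RatFunc.num (RatFunc.X : K) = RatFunc.num (1 : K) := by rw [h1]
  simp at h2
  exact Polynomial.X_ne_C (1 : ℚ) (by simpa using h2)

theorem IsU.one_sub_q : IsU (1 - EH.q) := by
  refine ⟨reg.sub_mem reg.one_mem q_mem, ?_⟩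
  rw [spec_sub reg.one_mem q_mem, spec_q, spec_one, sub_ne_zero]
  exact X_ne_one'.symm

theorem spec_q_pow (n : ℕ) : spec (q ^ n) = RatFunc.X ^ n := by
  have h : spec (q ^ n) = (specHom ⟨q, q_mem⟩) ^ n := by
    rw [← map_pow]
    rfl
  rw [h]
  congr 1
  exact spec_q

/-- `[d]_q` is a unit at `t = 1`. -/
theorem IsU.qnum {d : ℕ} (hd : 0 < d) : IsU (∑ i ∈ Finset.range d, EH.q ^ i) := by
  refine ⟨reg.sum_mem fun i _ => reg.pow_mem q_mem i, ?_⟩
  rw [spec_sum _ _ fun i _ => reg.pow_mem q_mem i]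
  simp only [spec_q_pow]
  have h1 : (∑ i ∈ Finset.range d, (RatFunc.X : K) ^ i) =
      algebraMap (Polynomial ℚ) K (∑ i ∈ Finset.range d, Polynomial.X ^ i) := by
    rw [map_sum]
    simp
  rw [h1]
  apply RatFunc.algebraMap_ne_zero
  intro h2
  have h3 := congrArg (Polynomial.eval 1) h2
  simp [Polynomial.eval_finsetSum] at h3
  omega

theorem M_eq : M = (1 - q) * hb := rfl

theorem M_inv_smul (x : F) : M⁻¹ * (hb * x) = (1 - q)⁻¹ * x := by
  rw [M_eq]
  have h1 := IsU.one_sub_q.ne_zero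
  have h2 := hb_ne_zero
  field_simp

/-- The one-variable representation `p_k ↦ (1 - t^{-k}) w^k`. -/
def rep : Lam →ₐ[F] Polynomial F :=
  MvPolynomial.aeval fun k : ℕ+ => Polynomial.monomial (k : ℕ) (1 - (t⁻¹) ^ (k : ℕ))

theorem rep_X (k : ℕ+) : rep (X k) = Polynomial.monomial (k : ℕ) (1 - (t⁻¹) ^ (k : ℕ)) := by
  unfold rep
  rw [aeval_X]

theorem rep_C (x : F) : rep (C x) = Polynomial.C x := rep.commutes x

/-- Coefficients of `(1 - zw)/(1 - zw/t)`. -/
def cc (n : ℕ) : F := hb * (t⁻¹) ^ n + if n = 0 then t else 0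

theorem cc_zero : cc 0 = 1 := by simp [cc, hb]

theorem cc_succ (n : ℕ) : cc (n + 1) = hb * (t⁻¹) ^ (n + 1) := by simp [cc]

theorem geom_aux (n : ℕ) : ∑ i ∈ Finset.range n, hb * (t⁻¹) ^ (n - i) = (t⁻¹) ^ n - 1 := by
  have ht := t_ne_zero
  induction n with
  | zero => simp
  | succ n ih =>
    rw [Finset.sum_range_succ']
    have h1 : ∑ i ∈ Finset.range n, hb * (t⁻¹) ^ (n + 1 - (i + 1)) =
        ∑ i ∈ Finset.range n, hb * (t⁻¹) ^ (n - i) := by
      refine Finset.sum_congr rfl fun i _ => ?_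
      congr 2
      omega
    rw [h1, ih, Nat.sub_zero, pow_succ]
    unfold hb
    have h2 : t * t⁻¹ = 1 := mul_inv_cancel₀ ht
    linear_combination (-(t⁻¹) ^ n) * h2

theorem newton_aux (n : ℕ) : ∑ i ∈ Finset.range (n + 1), cc (n - i) * (1 - (t⁻¹) ^ (i + 1)) =
    -((n + 1 : F) * (hb * (t⁻¹) ^ (n + 1))) := by
  have ht := t_ne_zero
  rw [Finset.sum_range_succ, Nat.sub_self, cc_zero]
  have h1 : ∑ i ∈ Finset.range n, cc (n - i) * (1 - (t⁻¹) ^ (i + 1)) =
      ∑ i ∈ Finset.range n, (hb * (t⁻¹) ^ (n - i) - hb * (t⁻¹) ^ (n + 1)) := by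
    refine Finset.sum_congr rfl fun i hi => ?_
    rw [Finset.mem_range] at hi
    obtain ⟨m, hm⟩ : ∃ m, n - i = m + 1 := ⟨n - i - 1, by omega⟩
    rw [hm, cc_succ]
    have h2 : n + 1 = (m + 1) + (i + 1) := by omega
    rw [h2, pow_add]
    ring
  rw [h1, Finset.sum_sub_distrib, geom_aux, Finset.sum_const, Finset.card_range, nsmul_eq_mul,
    pow_succ]
  unfold hb
  have h2 : t * t⁻¹ = 1 := mul_inv_cancel₀ ht
  linear_combination (-(t⁻¹) ^ n) * h2

theorem rep_e (n : ℕ) : rep (e n) = Polynomial.C ((-1) ^ n) * Polynomial.monomial n (cc n) := by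
  induction n using Nat.strong_induction_on with
  | _ n ih =>
    cases n with
    | zero => rw [e_zero, map_one, cc_zero]; simp
    | succ n =>
      rw [e_succ, map_mul, rep_C, map_sum]
      have h1 : ∀ i : Fin (n + 1), rep ((-1) ^ (i : ℕ) * e (n - i) * p (Nat.succPNat i)) =
          Polynomial.monomial (n + 1) ((-1) ^ n * (cc (n - i) * (1 - (t⁻¹) ^ ((i : ℕ) + 1)))) := by
        intro i
        have hp : ∀ k : ℕ+, p k = X k := fun _ => rfl
        rw [map_mul, map_mul, map_pow, map_neg, map_one, ih (n - i) (by omega), hp, rep_X,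
          ← mul_assoc, mul_assoc, mul_assoc, Polynomial.monomial_mul_monomial]
        have h2 : n - (i : ℕ) + (Nat.succPNat i : ℕ) = n + 1 := by
          have := i.2
          rw [Nat.succPNat_coe]
          omega
        rw [h2, Polynomial.C_mul_monomial]
        have h3 : ((-1 : Polynomial F) ^ (i : ℕ)) = Polynomial.C ((-1) ^ (i : ℕ)) := by simp
        rw [h3, Polynomial.C_mul_monomial]
        congr 1
        have h4 : (-1 : F) ^ n = (-1) ^ (i : ℕ) * (-1) ^ (n - i) := by
          rw [← pow_add]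
          congr 1
          have := i.2
          omega
        rw [h4, Nat.succPNat_coe, Nat.succ_eq_add_one]
        ring
      rw [Finset.sum_congr rfl fun i _ => h1 i, ← map_sum, ← Finset.mul_sum,
        Finset.sum_range (fun i => cc (n - i) * (1 - (t⁻¹) ^ (i + 1))) |>.symm, newton_aux,
        Polynomial.C_mul_monomial, Polynomial.C_mul_monomial, cc_succ]
      congr 1
      have h6 : (n + 1 : F) ≠ 0 := by exact_mod_cast Nat.succ_ne_zero n
      have h7 : ((n : F) + 1)⁻¹ * ((n : F) + 1) = 1 := inv_mul_cancel₀ h6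
      rw [pow_succ (-1 : F) n]
      linear_combination (-((-1 : F) ^ n * (hb * (t⁻¹) ^ (n + 1)))) * h7

theorem rep_eCoeff (n : ℕ) : rep (eCoeff (n : ℤ)) = Polynomial.monomial n (cc n) := by
  unfold eCoeff
  rw [if_pos (Int.natCast_nonneg n), Int.toNat_natCast, map_mul, map_pow, map_neg, map_one, rep_e]
  have h3 : ((-1 : Polynomial F) ^ n) = Polynomial.C ((-1) ^ n) := by simp
  rw [h3, ← mul_assoc, ← Polynomial.C_mul, ← mul_pow]
  simp

/-- The dilation `w ↦ q^b w`. -/
def Sb (b : ℕ) : Polynomial F →ₐ[F] Polynomial F :=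
  Polynomial.aeval (Polynomial.C (q ^ b) * Polynomial.X)

theorem Sb_monomial (b n : ℕ) (x : F) :
    Sb b (Polynomial.monomial n x) = Polynomial.monomial n (q ^ (b * n) * x) := by
  unfold Sb
  rw [Polynomial.aeval_monomial, mul_pow, ← Polynomial.C_pow, ← pow_mul]
  change Polynomial.C x * _ = _
  rw [← mul_assoc, ← Polynomial.C_mul, Polynomial.C_mul_X_pow_eq_monomial, mul_comm x]

/-- Evaluation at `1/z = w/t`. -/
def evW : Polynomial Lam →+* Polynomial F :=
  Polynomial.eval₂RingHom rep.toRingHom (Polynomial.C (t⁻¹) * Polynomial.X)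

theorem evW_monomial (n : ℕ) (a : Lam) :
    evW (Polynomial.monomial n a) = rep a * Polynomial.monomial n ((t⁻¹) ^ n) := by
  unfold evW
  rw [Polynomial.coe_eval₂RingHom, Polynomial.eval₂_monomial, mul_pow, ← Polynomial.C_pow,
    Polynomial.C_mul_X_pow_eq_monomial]
  rfl

theorem evW_C (a : Lam) : evW (Polynomial.C a) = rep a := by
  rw [← Polynomial.monomial_zero_left, evW_monomial]
  simp

theorem evW_pleth (g : Lam) : evW (pleth g) = Sb 1 (rep g) := by
  have h : evW.comp pleth.toRingHom = (Sb 1).toRingHom.comp rep.toRingHom := by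
    apply MvPolynomial.ringHom_ext
    · intro x
      show evW (pleth (C x)) = Sb 1 (rep (C x))
      rw [pleth_C, evW_C, rep_C]
      exact ((Sb 1).commutes x).symm
    · intro k
      show evW (pleth (X k)) = Sb 1 (rep (X k))
      rw [pleth_X, map_add, evW_C, evW_monomial, rep_X, rep_C, Sb_monomial,
        Polynomial.C_mul_monomial, ← map_add, one_mul]
      congr 1
      have ht : t ^ (k : ℕ) * (t⁻¹) ^ (k : ℕ) = 1 := by
        rw [← mul_pow, mul_inv_cancel₀ t_ne_zero, one_pow]
      linear_combination (-(1 - q ^ (k : ℕ))) * ht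
  exact congrFun (congrArg DFunLike.coe h) g

theorem coeff_zero_pleth (g : Lam) : (pleth g).coeff 0 = g := by
  have h : (Polynomial.constantCoeff (R := Lam)).comp pleth.toRingHom = RingHom.id Lam := by
    apply MvPolynomial.ringHom_ext
    · intro x
      show (pleth (C x)).coeff 0 = C x
      rw [pleth_C, Polynomial.coeff_C_zero]
    · intro k
      show (pleth (X k)).coeff 0 = X k
      rw [pleth_X, Polynomial.coeff_add, Polynomial.coeff_C_zero,
        Polynomial.coeff_monomial_of_ne _ (PNat.ne_zero k).symm, add_zero]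
  exact congrFun (congrArg DFunLike.coe h) g

theorem rep_T (k : ℕ) (P : Polynomial Lam) : rep (T k P) =
    Polynomial.C (hb * (t⁻¹) ^ k) * Polynomial.X ^ k * evW P +
      Polynomial.C (if k = 0 then t else 0) * rep (P.coeff 0) := by
  induction P using Polynomial.induction_on' with
  | add U V hU hV =>
    rw [map_add, map_add, map_add, Polynomial.coeff_add, map_add, hU, hV]
    ring
  | monomial i a =>
    rw [T_monomial, map_mul, evW_monomial]
    have h1 : ((k : ℤ) + (i : ℤ)) = ((k + i : ℕ) : ℤ) := by push_cast; ring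
    rw [h1, rep_eCoeff, Polynomial.coeff_monomial]
    unfold cc
    rw [map_add, mul_add]
    congr 1
    · rw [Polynomial.C_mul_X_pow_eq_monomial, mul_left_comm, Polynomial.monomial_mul_monomial]
      congr 2
      rw [pow_add]
      ring
    · by_cases hk : k = 0
      · by_cases hi : i = 0
        · subst hk; subst hi
          simp [mul_comm]
        · subst hk
          rw [if_neg (by omega), if_neg hi]
          simp
      · rw [if_neg (by omega), if_neg hk]
        simp

/-- Action of `D_k` in the one-variable representation. -/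
theorem rep_D (k : ℕ) (g : Lam) : rep (D k g) =
    Polynomial.C (hb * (t⁻¹) ^ k) * (Polynomial.X ^ k * Sb 1 (rep g)) +
      Polynomial.C (if k = 0 then t else 0) * rep g := by
  rw [D_eq, rep_T, evW_pleth, coeff_zero_pleth, mul_assoc]

/-- The operator `w^a S^b`. -/
def W (a b : ℕ) : Module.End F (Polynomial F) :=
  LinearMap.mulLeft F (Polynomial.X ^ a) * (Sb b).toLinearMap

theorem W_apply (a b : ℕ) (x : Polynomial F) : W a b x = Polynomial.X ^ a * Sb b x := rfl

theorem W_monomial (a b n : ℕ) (x : F) :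
    W a b (Polynomial.monomial n x) = Polynomial.monomial (n + a) (q ^ (b * n) * x) := by
  rw [W_apply, Sb_monomial, Polynomial.X_pow_mul_monomial]

theorem W_mul (a b c d : ℕ) : W a b * W c d = q ^ (b * c) • W (a + c) (b + d) := by
  refine Polynomial.lhom_ext' fun n => ?_
  refine LinearMap.ext fun x => ?_
  show W a b (W c d (Polynomial.monomial n x)) =
    q ^ (b * c) • (W (a + c) (b + d) (Polynomial.monomial n x))
  rw [W_monomial, W_monomial, W_monomial, Polynomial.smul_monomial]
  congr 1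
  · congr 1
    omega
  · rw [smul_eq_mul, ← mul_assoc, ← mul_assoc, ← pow_add, ← pow_add]
    congr 2
    ring

/-- `A` acts in the one-variable representation as `ħ c w^a S^b + s`. -/
def IsRep (A : Module.End F Lam) (a b : ℕ) (c s : F) : Prop :=
  ∀ g : Lam, rep (A g) = (hb * c) • W a b (rep g) + s • rep g

theorem IsRep.comm {A B : Module.End F Lam} {a b a' b' : ℕ} {c s c' s' : F} (σ : ℤˣ)
    (hA : IsRep A a b c s) (hB : IsRep B a' b' c' s') {x d : ℕ}
    (h : b * a' = x + d) (h' : b' * a = x) :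
    IsRep (M⁻¹ • ((σ : ℤ) • (A * B - B * A))) (a + a') (b + b')
      (-((σ : ℤ) : F) * (c * c' * (q ^ x * ∑ i ∈ Finset.range d, q ^ i))) 0 := by
  intro g
  have h1 : rep ((A * B) g) = (hb * c * (hb * c') * q ^ (b * a')) • W (a + a') (b + b') (rep g) +
      (hb * c * s') • W a b (rep g) + (s * (hb * c')) • W a' b' (rep g) +
      (s * s') • rep g := by
    show rep (A (B g)) = _
    rw [hA, hB, map_add, map_smul, map_smul]
    have h2 : W a b (W a' b' (rep g)) = q ^ (b * a') • W (a + a') (b + b') (rep g) := by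
      rw [← Module.End.mul_apply, W_mul]
      rfl
    rw [h2]
    simp only [Polynomial.smul_eq_C_mul, Polynomial.C_mul, Polynomial.C_pow]
    ring
  have h3 : rep ((B * A) g) = (hb * c * (hb * c') * q ^ (b' * a)) • W (a + a') (b + b') (rep g) +
      (hb * c * s') • W a b (rep g) + (s * (hb * c')) • W a' b' (rep g) +
      (s * s') • rep g := by
    show rep (B (A g)) = _
    rw [hB, hA, map_add, map_smul, map_smul]
    have h2 : W a' b' (W a b (rep g)) = q ^ (b' * a) • W (a + a') (b + b') (rep g) := by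
      rw [← Module.End.mul_apply, W_mul, add_comm a' a, add_comm b' b]
      rfl
    rw [h2]
    simp only [Polynomial.smul_eq_C_mul, Polynomial.C_mul, Polynomial.C_pow]
    ring
  have h4 : rep ((M⁻¹ • ((σ : ℤ) • (A * B - B * A))) g) =
      (M⁻¹ * ((σ : ℤ) : F)) • (rep ((A * B) g) - rep ((B * A) g)) := by
    rw [LinearMap.smul_apply, LinearMap.smul_apply, map_smul, LinearMap.sub_apply, map_zsmul,
      map_sub, ← Int.cast_smul_eq_zsmul F, smul_smul]
  rw [h4, h1, h3, zero_smul, add_zero]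
  have h5 : ∀ (a b c d e : Polynomial F), a + b + c + d - (e + b + c + d) = a - e := by
    intro a b c d e; ring
  rw [h5, ← sub_smul, smul_smul, h, h', pow_add]
  congr 1
  have h6 : (∑ i ∈ Finset.range d, q ^ i) * (q - 1) = q ^ d - 1 := geom_sum_mul q d
  have h7 : (1 - q) * (1 - q)⁻¹ = 1 := mul_inv_cancel₀ IsU.one_sub_q.ne_zero
  have h8 : M⁻¹ = (1 - q)⁻¹ * hb⁻¹ := by rw [M_eq, mul_inv]
  have h9 : hb * hb⁻¹ = 1 := mul_inv_cancel₀ hb_ne_zero
  rw [h8]
  have h10 : q ^ d = (∑ i ∈ Finset.range d, q ^ i) * (q - 1) + 1 := by rw [h6]; ring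
  rw [h10]
  linear_combination (-((σ : ℤ) : F) * hb * c * c' * q ^ x * (∑ i ∈ Finset.range d, q ^ i)) *
    ((hb * hb⁻¹) * h7 + h9)

end

end Pool.Agent.Helper204.EH
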